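import Pool.Agent.TH109.CG.Stmt

/-!
Conjugations and the inner product on `the Lie algebra`.
-/

open scoped ContDiff Matrix.Norms.Frobenius
open Matrix

noncomputable section

namespace Pool.Agent.TH109.CG

variable {N : ℕ} {G : CGroup N}

theorem ip_self (A : lieAlg G) : ip A A = ‖A‖ ^ 2 := by
  have h1 : ‖A‖ ^ 2 = ∑ i, ∑ j, ‖(A : Mat N) i j‖ ^ 2 := by
    have h2 : ‖A‖ = (∑ i, ∑ j, ‖(A : Mat N) i j‖ ^ (2 : ℝ)) ^ (1 / 2 : ℝ) :=
      frobenius_norm_def (A : Mat N)
    have h3 : 0 ≤ ∑ i, ∑ j, ‖(A : Mat N) i j‖ ^ (2 : ℝ) :=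
      Finset.sum_nonneg fun i _ => Finset.sum_nonneg fun j _ => by positivity
    rw [h2, ← Real.sqrt_eq_rpow, Real.sq_sqrt h3]
    refine Finset.sum_congr rfl fun i _ => Finset.sum_congr rfl fun j _ => ?_
    exact Real.rpow_two _
  have h4 : ∀ i j, (A : Mat N) j i = - star ((A : Mat N) i j) := by
    intro i j
    have h5 := congrFun (congrFun (skew G A.2) j) i
    rw [conjTranspose_apply, neg_apply] at h5
    rw [h5, neg_neg]
  rw [h1]
  unfold ip
  rw [Matrix.trace]
  simp only [diag_apply, Matrix.mul_apply, Complex.re_sum]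
  rw [← Finset.sum_neg_distrib]
  refine Finset.sum_congr rfl fun i _ => ?_
  rw [← Finset.sum_neg_distrib]
  refine Finset.sum_congr rfl fun j _ => ?_
  rw [h4 i j, mul_neg, Complex.neg_re, neg_neg]
  have h6 : (A : Mat N) i j * star ((A : Mat N) i j) = ((‖(A : Mat N) i j‖ ^ 2 : ℝ) : ℂ) := by
    push_cast
    exact Complex.mul_conj' _
  rw [h6, Complex.ofReal_re]

theorem ip_comm (A B : lieAlg G) : ip A B = ip B A := by
  unfold ip
  rw [trace_mul_comm]

/-- the inner product space structure on `the Lie algebra` -/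
instance lieInner (G : CGroup N) : InnerProductSpace ℝ (lieAlg G) where
  inner A B := ip A B
  norm_sq_eq_re_inner A := by simp only [RCLike.re_to_real]; exact (ip_self A).symm
  conj_inner_symm A B := by simpa using ip_comm B A
  add_left A B C := by simp [ip, Matrix.add_mul]; ring
  smul_left A B c := by simp [ip, Matrix.smul_mul]

theorem ip_brk (A B C : lieAlg G) : ip (brk A B) C = ip A (brk B C) := by
  unfold ip brk
  have h1 : ((B : Mat N) * A * C).trace = ((A : Mat N) * (C * B)).trace := by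
    rw [Matrix.mul_assoc, trace_mul_comm, Matrix.mul_assoc]
  show -(((A : Mat N) * B - B * A) * C).trace.re = -((A : Mat N) * (B * C - C * B)).trace.re
  rw [Matrix.sub_mul, Matrix.mul_sub, trace_sub, trace_sub, h1, Matrix.mul_assoc]

theorem brk_self (A : lieAlg G) : brk A A = 0 := by
  apply Subtype.ext
  show (A : Mat N) * A - A * A = 0
  rw [sub_self]

theorem brk_jac (A B C : lieAlg G) : brk A (brk B C) = brk (brk A B) C + brk B (brk A C) := by
  apply Subtype.ext
  show (A : Mat N) * (B * C - C * B) - (B * C - C * B) * A =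
    (((A : Mat N) * B - B * A) * C - C * (A * B - B * A)) +
      ((B : Mat N) * (A * C - C * A) - (A * C - C * A) * B)
  noncomm_ring

/-- the bracket as a bilinear map -/
def brkL (G : CGroup N) : lieAlg G →ₗ[ℝ] lieAlg G →ₗ[ℝ] lieAlg G :=
  LinearMap.mk₂ ℝ brk
    (fun A B C => by apply Subtype.ext; simp [brk, Matrix.add_mul, Matrix.mul_add]; abel)
    (fun c A B => by apply Subtype.ext; simp [brk, smul_sub])
    (fun A B C => by apply Subtype.ext; simp [brk, Matrix.add_mul, Matrix.mul_add]; abel)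
    (fun c A B => by apply Subtype.ext; simp [brk, smul_sub])

/-- conjugation of `A` by `exp (s Z)` -/
def ad (Z : lieAlg G) (s : ℝ) (A : lieAlg G) : lieAlg G :=
  ⟨NormedSpace.exp (s • (Z : Mat N)) * (A : Mat N) * NormedSpace.exp (-(s • (Z : Mat N))),
    conj_mem G Z.2 A.2 s⟩

theorem ad_coe (Z : lieAlg G) (s : ℝ) (A : lieAlg G) : ((ad Z s A : lieAlg G) : Mat N) =
    NormedSpace.exp (s • (Z : Mat N)) * (A : Mat N) * NormedSpace.exp (-(s • (Z : Mat N))) := rfl

theorem ad_zero (Z A : lieAlg G) : ad Z 0 A = A := by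
  apply Subtype.ext
  rw [ad_coe, zero_smul, neg_zero, NormedSpace.exp_zero, Matrix.one_mul, Matrix.mul_one]

theorem ad_der (Z A : lieAlg G) (s : ℝ) : HasDerivAt (fun u => ad Z u A) (brk Z (ad Z s A)) s := by
  obtain ⟨P, hP⟩ := (lieAlg G).subtype.exists_leftInverse_of_injective
    (LinearMap.ker_eq_bot.2 (lieAlg G).injective_subtype)
  have hP' : ∀ X : lieAlg G, P (X : Mat N) = X := fun X =>
    congrArg (fun f : lieAlg G →ₗ[ℝ] lieAlg G => f X) hP
  have h1 : HasDerivAt (fun u : ℝ => NormedSpace.exp (u • (Z : Mat N)))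
      ((Z : Mat N) * NormedSpace.exp (s • (Z : Mat N))) s :=
    hasDerivAt_exp_smul_const' (Z : Mat N) s
  have h2 : HasDerivAt (fun u : ℝ => NormedSpace.exp (-(u • (Z : Mat N))))
      (NormedSpace.exp (-(s • (Z : Mat N))) * (-(Z : Mat N))) s := by
    have h3 := hasDerivAt_exp_smul_const (-(Z : Mat N)) s
    simp only [smul_neg] at h3
    exact h3
  have h4 := (h1.mul_const (A : Mat N)).mul h2
  have h5 := (P.toContinuousLinearMap.hasFDerivAt
    (x := NormedSpace.exp (s • (Z : Mat N)) * (A : Mat N) *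
      NormedSpace.exp (-(s • (Z : Mat N))))).comp_hasDerivAt s h4
  have h6 : P.toContinuousLinearMap ∘ (fun u : ℝ => NormedSpace.exp (u • (Z : Mat N)) *
      (A : Mat N) * NormedSpace.exp (-(u • (Z : Mat N)))) = fun u => ad Z u A := by
    funext u
    exact hP' (ad Z u A)
  have h7 : P.toContinuousLinearMap ((Z : Mat N) * NormedSpace.exp (s • (Z : Mat N)) *
      (A : Mat N) * NormedSpace.exp (-(s • (Z : Mat N))) +
      NormedSpace.exp (s • (Z : Mat N)) * (A : Mat N) *
        (NormedSpace.exp (-(s • (Z : Mat N))) * (-(Z : Mat N)))) = brk Z (ad Z s A) := by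
    rw [← hP' (brk Z (ad Z s A))]
    show P _ = P _
    congr 1
    show _ = (Z : Mat N) * (ad Z s A : Mat N) - (ad Z s A : Mat N) * (Z : Mat N)
    rw [ad_coe]
    simp only [Matrix.mul_assoc, Matrix.mul_neg, sub_eq_add_neg]
  rw [← h6, ← h7]
  exact h5

theorem ad_fix (Z : lieAlg G) (s : ℝ) (A : lieAlg G) (h : brk Z A = 0) : ad Z s A = A := by
  have h1 : Commute (A : Mat N) (Z : Mat N) := by
    have h2 := congrArg (fun X : lieAlg G => (X : Mat N)) h
    exact (sub_eq_zero.1 h2).symm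
  have h3 : Commute (A : Mat N) (NormedSpace.exp (s • (Z : Mat N))) :=
    Commute.exp_right (h1.smul_right s)
  apply Subtype.ext
  rw [ad_coe, ← h3.eq, Matrix.mul_assoc, exp_mul_exp_neg, Matrix.mul_one]

theorem ad_mul_aux (X A B : Mat N) :
    (NormedSpace.exp X * A * NormedSpace.exp (-X)) * (NormedSpace.exp X * B *
      NormedSpace.exp (-X)) = NormedSpace.exp X * (A * B) * NormedSpace.exp (-X) := by
  have h1 := exp_neg_mul_exp X
  calc (NormedSpace.exp X * A * NormedSpace.exp (-X)) * (NormedSpace.exp X * B *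
      NormedSpace.exp (-X))
      = NormedSpace.exp X * A * (NormedSpace.exp (-X) * NormedSpace.exp X) * B *
        NormedSpace.exp (-X) := by simp only [Matrix.mul_assoc]
    _ = _ := by rw [h1, Matrix.mul_one]; simp only [Matrix.mul_assoc]

theorem ad_brk (Z : lieAlg G) (s : ℝ) (A B : lieAlg G) :
    brk (ad Z s A) (ad Z s B) = ad Z s (brk A B) := by
  apply Subtype.ext
  show (ad Z s A : Mat N) * (ad Z s B : Mat N) - (ad Z s B : Mat N) * (ad Z s A : Mat N) =
    NormedSpace.exp (s • (Z : Mat N)) * ((A : Mat N) * B - B * A) *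
      NormedSpace.exp (-(s • (Z : Mat N)))
  rw [ad_coe, ad_coe, ad_mul_aux, ad_mul_aux, Matrix.mul_sub, Matrix.sub_mul]

theorem ad_inner (Z : lieAlg G) (s : ℝ) (A B : lieAlg G) : ip (ad Z s A) (ad Z s B) = ip A B := by
  unfold ip
  rw [ad_coe, ad_coe, ad_mul_aux, trace_mul_comm, ← Matrix.mul_assoc, exp_neg_mul_exp,
    Matrix.one_mul]

instance : Nonempty (Pt G) := ⟨⟨1, G.S.one_mem⟩⟩

theorem move_fix_iff (A : lieAlg G) (s : ℝ) (p : Pt G) :
    move p A s = p ↔ NormedSpace.exp (s • (A : Mat N)) = 1 := by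
  constructor
  · intro h
    have h1 : (p : Mat N) * NormedSpace.exp (s • (A : Mat N)) = p :=
      congrArg (fun x : Pt G => (x : Mat N)) h
    have h2 : star (p : Mat N) * p = 1 := Matrix.mem_unitaryGroup_iff'.1 (G.unitary _ p.2)
    calc NormedSpace.exp (s • (A : Mat N)) = (star (p : Mat N) * p) *
          NormedSpace.exp (s • (A : Mat N)) := by rw [h2, one_mul]
      _ = 1 := by rw [mul_assoc, h1, h2]
  · intro h
    apply Subtype.ext
    show (p : Mat N) * NormedSpace.exp (s • (A : Mat N)) = p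
    rw [h, mul_one]

theorem ad_move (Z : lieAlg G) (s : ℝ) (A : lieAlg G) (h : ∀ p : Pt G, move p A (2 * Real.pi) = p)
    (p : Pt G) : move p (ad Z s A) (2 * Real.pi) = p := by
  have h1 := (move_fix_iff A (2 * Real.pi) p).1 (h p)
  rw [move_fix_iff, ad_coe, Matrix.exp_neg]
  have h2 : (2 * Real.pi) • (NormedSpace.exp (s • (Z : Mat N)) * (A : Mat N) *
      (NormedSpace.exp (s • (Z : Mat N)))⁻¹) = NormedSpace.exp (s • (Z : Mat N)) *
      ((2 * Real.pi) • (A : Mat N)) * (NormedSpace.exp (s • (Z : Mat N)))⁻¹ := by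
    rw [Matrix.mul_smul, Matrix.smul_mul]
  rw [h2, Matrix.exp_conj _ _ (Matrix.isUnit_exp _), h1, Matrix.mul_one]
  exact Matrix.mul_nonsing_inv _ ((Matrix.isUnit_iff_isUnit_det _).1 (Matrix.isUnit_exp _))

end Pool.Agent.TH109.CG
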