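import Mathlib

/-!
Kronecker's theorem: a continuous function on a torus vanishing on a line with rationally
independent slopes vanishes.
-/

open MeasureTheory Filter Topology UnitAddTorus

noncomputable section

namespace Pool.Agent.TH109.CG

variable {ι : Type} [Fintype ι]

/-- the line `t ↦ t b` in the torus -/
def ln (b : ι → ℝ) (t : ℝ) : UnitAddTorus ι := fun i => ((t * b i : ℝ) : UnitAddCircle)

theorem mFourier_ln (b : ι → ℝ) (n : ι → ℤ) (t : ℝ) :
    mFourier n (ln b t) = Complex.exp ((2 * Real.pi * Complex.I * ((∑ i, (n i : ℝ) * b i : ℝ) : ℂ)) * t) := by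
  show ∏ i, fourier (n i) (ln b t i) = _
  simp only [ln, fourier_coe_apply]
  rw [← Complex.exp_sum]
  congr 1
  push_cast
  rw [Finset.mul_sum, Finset.sum_mul]
  refine Finset.sum_congr rfl fun i _ => ?_
  ring

theorem ln_continuous (b : ι → ℝ) : Continuous (ln b) := by
  refine continuous_pi fun i => ?_
  exact (AddCircle.continuous_mk' (1 : ℝ)).comp (continuous_id.mul continuous_const)

/-- mean over `[0,T]` -/
def mean (b : ι → ℝ) (f : C(UnitAddTorus ι, ℂ)) (T : ℝ) : ℂ :=
  (T : ℂ)⁻¹ * ∫ t in (0 : ℝ)..T, f (ln b t)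

theorem mean_tendsto (b : ι → ℝ) (n : ι → ℤ) (h : ∑ i, (n i : ℝ) * b i ≠ 0) :
    Tendsto (mean b (mFourier n)) atTop (𝓝 0) := by
  set c : ℂ := 2 * Real.pi * Complex.I * ((∑ i, (n i : ℝ) * b i : ℝ) : ℂ) with hc
  have hc0 : c ≠ 0 := by
    rw [hc]
    have : ((∑ i, (n i : ℝ) * b i : ℝ) : ℂ) ≠ 0 := Complex.ofReal_ne_zero.2 h
    have h2 : (2 * Real.pi : ℂ) ≠ 0 := by
      exact_mod_cast (by positivity : (2 * Real.pi : ℝ) ≠ 0)
    exact mul_ne_zero (mul_ne_zero h2 Complex.I_ne_zero) this
  have h1 : ∀ T : ℝ, mean b (mFourier n) T = (T : ℂ)⁻¹ * ((Complex.exp (c * T) - 1) / c) := by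
    intro T
    unfold mean
    simp only [mFourier_ln]
    rw [integral_exp_mul_complex hc0]
    simp
  have h2 : ∀ T : ℝ, ‖mean b (mFourier n) T‖ ≤ |T|⁻¹ * (2 / ‖c‖) := by
    intro T
    rw [h1, norm_mul, norm_inv, Complex.norm_real, Real.norm_eq_abs, norm_div]
    have h3 : ‖Complex.exp (c * T) - 1‖ ≤ 2 := by
      refine (norm_sub_le _ _).trans ?_
      have : ‖Complex.exp (c * T)‖ = 1 := by
        rw [hc, Complex.norm_exp]
        have : (2 * (Real.pi : ℂ) * Complex.I * ((∑ i, (n i : ℝ) * b i : ℝ) : ℂ) * (T : ℂ)).re = 0 := by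
          have e : (2 * (Real.pi : ℂ) * Complex.I * ((∑ i, (n i : ℝ) * b i : ℝ) : ℂ) * (T : ℂ)) =
              ((2 * Real.pi * (∑ i, (n i : ℝ) * b i) * T : ℝ) : ℂ) * Complex.I := by
            push_cast
            ring
          rw [e, Complex.re_ofReal_mul, Complex.I_re, mul_zero]
        rw [this, Real.exp_zero]
      rw [this, norm_one]
      norm_num
    gcongr
  have h4 : Tendsto (fun T : ℝ => |T|⁻¹ * (2 / ‖c‖)) atTop (𝓝 0) := by
    have : Tendsto (fun T : ℝ => |T|⁻¹) atTop (𝓝 0) :=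
      tendsto_inv_atTop_zero.comp tendsto_abs_atTop_atTop
    simpa using this.mul_const (2 / ‖c‖)
  exact squeeze_zero_norm h2 h4

theorem mean_one (b : ι → ℝ) : Tendsto (mean b (mFourier (0 : ι → ℤ))) atTop (𝓝 1) := by
  refine Tendsto.congr' ?_ tendsto_const_nhds
  filter_upwards [eventually_gt_atTop 0] with T hT
  unfold mean
  have : ((T : ℂ)) ≠ 0 := Complex.ofReal_ne_zero.2 hT.ne'
  simp [mFourier_zero, this]

theorem integral_mFourier (n : ι → ℤ) (hn : n ≠ 0) :
    ∫ x, mFourier n x ∂(Measure.addHaar : Measure (UnitAddTorus ι)) = 0 := by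
  classical
  obtain ⟨i, hi⟩ : ∃ i, n i ≠ 0 := by
    by_contra h
    push Not at h
    exact hn (funext h)
  -- translation by `1/(2 n i)` in the direction `i`
  set y : UnitAddTorus ι := ln (Pi.single i 1) (1 / (2 * (n i : ℝ))) with hy
  have hni : (n i : ℝ) ≠ 0 := by exact_mod_cast hi
  have h1 : mFourier n y = -1 := by
    rw [hy, mFourier_ln]
    have : ∑ j, (n j : ℝ) * (Pi.single i (1 : ℝ) : ι → ℝ) j = n i := by
      rw [Finset.sum_eq_single i]
      · simp
      · intro j _ hj
        simp [Pi.single_eq_of_ne hj]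
      · simp
    rw [this, ← Complex.exp_pi_mul_I]
    congr 1
    have hnc : ((n i : ℝ) : ℂ) ≠ 0 := Complex.ofReal_ne_zero.2 hni
    push_cast at hnc ⊢
    field_simp
  have h2 : ∀ x, mFourier n (y + x) = mFourier n y * mFourier n x := by
    intro x
    show ∏ i, fourier (n i) ((y + x) i) = (∏ i, fourier (n i) (y i)) * ∏ i, fourier (n i) (x i)
    rw [← Finset.prod_mul_distrib]
    refine Finset.prod_congr rfl fun i _ => ?_
    simp only [Pi.add_apply, fourier_apply, smul_add, AddCircle.toCircle_add, Circle.coe_mul]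
  have h3 := integral_add_left_eq_self (μ := (Measure.addHaar : Measure (UnitAddTorus ι)))
    (fun x => mFourier n x) y
  simp only [h2, h1, neg_one_mul, integral_neg] at h3
  have h4 : (2 : ℂ) * ∫ x, mFourier n x ∂(Measure.addHaar : Measure (UnitAddTorus ι)) = 0 := by
    linear_combination -h3
  exact (mul_eq_zero.1 h4).resolve_left two_ne_zero

theorem integrable_cont (f : C(UnitAddTorus ι, ℂ)) :
    Integrable (fun x => f x) (Measure.addHaar : Measure (UnitAddTorus ι)) :=
  f.continuous.integrable_of_hasCompactSupport (HasCompactSupport.of_compactSpace _)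

theorem mean_add (b : ι → ℝ) (f g : C(UnitAddTorus ι, ℂ)) (T : ℝ) :
    mean b (f + g) T = mean b f T + mean b g T := by
  unfold mean
  rw [← mul_add, ← intervalIntegral.integral_add]
  · rfl
  · exact (f.continuous.comp (ln_continuous b)).intervalIntegrable _ _
  · exact (g.continuous.comp (ln_continuous b)).intervalIntegrable _ _

theorem mean_smul (b : ι → ℝ) (c : ℂ) (f : C(UnitAddTorus ι, ℂ)) (T : ℝ) :
    mean b (c • f) T = c * mean b f T := by
  unfold mean
  have : (fun t : ℝ => (c • f) (ln b t)) = fun t => c * f (ln b t) := rfl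
  rw [this, intervalIntegral.integral_const_mul]
  ring

theorem mean_le (b : ι → ℝ) (f : C(UnitAddTorus ι, ℂ)) (T ε : ℝ) (hT : 0 < T)
    (h : ∀ t, ‖f (ln b t)‖ ≤ ε) : ‖mean b f T‖ ≤ ε := by
  unfold mean
  have h1 : ‖∫ t in (0 : ℝ)..T, f (ln b t)‖ ≤ ε * |T - 0| :=
    intervalIntegral.norm_integral_le_of_norm_le_const fun t _ => h t
  rw [norm_mul, norm_inv, Complex.norm_real, Real.norm_eq_abs, abs_of_pos hT]
  rw [sub_zero, abs_of_pos hT] at h1
  calc T⁻¹ * ‖∫ t in (0 : ℝ)..T, f (ln b t)‖ ≤ T⁻¹ * (ε * T) := by gcongr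
    _ = ε := by field_simp

/-- Weyl's equidistribution on trigonometric polynomials -/
theorem mean_span (b : ι → ℝ) (hb : ∀ n : ι → ℤ, ∑ i, (n i : ℝ) * b i = 0 → n = 0)
    (p : C(UnitAddTorus ι, ℂ)) (hp : p ∈ Submodule.span ℂ (Set.range (mFourier (d := ι)))) :
    Tendsto (fun T => ((Measure.addHaar : Measure (UnitAddTorus ι)).real Set.univ : ℂ) *
      mean b p T) atTop (𝓝 (∫ x, p x ∂(Measure.addHaar : Measure (UnitAddTorus ι)))) := by
  induction hp using Submodule.span_induction with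
  | mem x hx =>
    obtain ⟨n, rfl⟩ := hx
    by_cases hn : n = 0
    · subst hn
      have h1 := (mean_one b).const_mul
        ((Measure.addHaar : Measure (UnitAddTorus ι)).real Set.univ : ℂ)
      have h2 : ∫ x, mFourier (0 : ι → ℤ) x ∂(Measure.addHaar : Measure (UnitAddTorus ι)) =
          ((Measure.addHaar : Measure (UnitAddTorus ι)).real Set.univ : ℂ) := by
        simp [mFourier_zero]
      rw [h2]
      rwa [mul_one] at h1
    · have h1 := (mean_tendsto b n fun h => hn (hb n h)).const_mul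
        ((Measure.addHaar : Measure (UnitAddTorus ι)).real Set.univ : ℂ)
      rw [integral_mFourier n hn]
      rwa [mul_zero] at h1
  | zero =>
    have : (fun T => ((Measure.addHaar : Measure (UnitAddTorus ι)).real Set.univ : ℂ) *
      mean b 0 T) = fun _ => 0 := by
      funext T
      simp [mean]
    rw [this]
    simp
  | add x y _ _ hx hy =>
    have h1 := hx.add hy
    have h2 : ∫ z, (x + y) z ∂(Measure.addHaar : Measure (UnitAddTorus ι)) =
        ∫ z, x z ∂(Measure.addHaar : Measure (UnitAddTorus ι)) +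
        ∫ z, y z ∂(Measure.addHaar : Measure (UnitAddTorus ι)) :=
      integral_add (integrable_cont x) (integrable_cont y)
    rw [h2]
    refine h1.congr fun T => ?_
    rw [mean_add, mul_add]
  | smul c x _ hx =>
    have h1 := hx.const_mul c
    have h2 : ∫ z, (c • x) z ∂(Measure.addHaar : Measure (UnitAddTorus ι)) =
        c * ∫ z, x z ∂(Measure.addHaar : Measure (UnitAddTorus ι)) :=
      integral_const_mul c (fun z => x z)
    rw [h2]
    refine h1.congr fun T => ?_
    rw [mean_smul]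
    ring

theorem integral_zero_of_line (b : ι → ℝ) (hb : ∀ n : ι → ℤ, ∑ i, (n i : ℝ) * b i = 0 → n = 0)
    (f : C(UnitAddTorus ι, ℂ)) (hf : ∀ t, f (ln b t) = 0) :
    ∫ x, f x ∂(Measure.addHaar : Measure (UnitAddTorus ι)) = 0 := by
  set μ : Measure (UnitAddTorus ι) := Measure.addHaar with hμ
  set m : ℝ := μ.real Set.univ with hm
  have hm0 : 0 ≤ m := measureReal_nonneg
  have key : ∀ ε : ℝ, 0 < ε → ‖∫ x, f x ∂μ‖ ≤ (2 * m) * ε := by
    intro ε hε
    have hcl : f ∈ (Submodule.span ℂ (Set.range (mFourier (d := ι)))).topologicalClosure := by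
      rw [span_mFourier_closure_eq_top]; trivial
    obtain ⟨p, hp, hd⟩ := Metric.mem_closure_iff.1 hcl ε hε
    have hd' : ‖f - p‖ < ε := by rwa [dist_eq_norm] at hd
    have h1 := (mean_span b hb p hp).norm
    have h2 : ‖∫ x, p x ∂μ‖ ≤ m * ε := by
      refine le_of_tendsto h1 ?_
      filter_upwards [eventually_gt_atTop 0] with T hT
      rw [norm_mul, Complex.norm_real, Real.norm_eq_abs, abs_of_nonneg hm0]
      refine mul_le_mul_of_nonneg_left (mean_le b p T ε hT fun t => ?_) hm0
      have := (f - p).norm_coe_le_norm (ln b t)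
      rw [ContinuousMap.sub_apply, hf, zero_sub, norm_neg] at this
      exact this.trans hd'.le
    have h3 : ‖∫ x, (f - p) x ∂μ‖ ≤ m * ε := by
      have := norm_integral_le_of_norm_le_const (μ := μ) (f := fun x => (f - p) x) (C := ε)
        (Filter.Eventually.of_forall fun x => ((f - p).norm_coe_le_norm x).trans hd'.le)
      rwa [mul_comm] at this
    have h4 : ∫ x, (f - p) x ∂μ = ∫ x, f x ∂μ - ∫ x, p x ∂μ :=
      integral_sub (integrable_cont f) (integrable_cont p)
    calc ‖∫ x, f x ∂μ‖ = ‖∫ x, (f - p) x ∂μ + ∫ x, p x ∂μ‖ := by rw [h4, sub_add_cancel]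
      _ ≤ _ := (norm_add_le _ _).trans (by linarith)
  have h5 : ‖∫ x, f x ∂μ‖ ≤ 0 := by
    refine le_of_forall_pos_le_add fun δ hδ => ?_
    have h6 := key (δ / (2 * m + 1)) (by positivity)
    refine h6.trans ?_
    rw [zero_add, mul_div_assoc', div_le_iff₀ (by positivity)]
    nlinarith
  exact norm_le_zero_iff.1 h5

/-- Kronecker's theorem -/
theorem kronecker (b : ι → ℝ) (hb : ∀ n : ι → ℤ, ∑ i, (n i : ℝ) * b i = 0 → n = 0)
    (g : UnitAddTorus ι → ℝ) (hg : Continuous g) (h0 : ∀ x, 0 ≤ g x)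
    (hl : ∀ t, g (ln b t) = 0) (x : UnitAddTorus ι) : g x = 0 := by
  have h1 := integral_zero_of_line b hb ⟨fun x => (g x : ℂ), Complex.continuous_ofReal.comp hg⟩
    (fun t => by simp [hl])
  have h2 : ∫ x, g x ∂(Measure.addHaar : Measure (UnitAddTorus ι)) = 0 := by
    have h3 : ∫ x, (g x : ℂ) ∂(Measure.addHaar : Measure (UnitAddTorus ι)) = 0 := h1
    rw [integral_complex_ofReal] at h3
    exact_mod_cast h3
  rw [integral_eq_zero_iff_of_nonneg h0
    (hg.integrable_of_hasCompactSupport (HasCompactSupport.of_compactSpace _))] at h2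
  have h4 : g = 0 := (Continuous.ae_eq_iff_eq _ hg continuous_const).1 h2
  exact congrFun h4 x

end Pool.Agent.TH109.CG
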