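import Pool.Agent.TH109.CG.Grp
import Pool.Agent.TH109.CG.Kron

/-!
Every element of the Lie algebra of a compact matrix group is a real combination of commuting
elements generating closed one-parameter groups.
-/

open scoped Matrix.Norms.Frobenius Topology
open Matrix Filter Module UnitAddTorus

noncomputable section

namespace Pool.Agent.TH109.CG

variable {N : ℕ}

/-- `U diag(d) U*` -/
def cd (U : Matrix.unitaryGroup (Fin N) ℂ) (d : Fin N → ℂ) : Mat N :=
  (U : Mat N) * diagonal d * star (U : Mat N)

theorem exp_cd (U : Matrix.unitaryGroup (Fin N) ℂ) (d : Fin N → ℂ) :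
    NormedSpace.exp (cd U d) = cd U (fun i => Complex.exp (d i)) := by
  have h2 := Matrix.exp_units_conj (Unitary.toUnits U) (diagonal d)
  have h3 : ((Unitary.toUnits U : (Mat N)ˣ) : Mat N) = (U : Mat N) := rfl
  have h4 : (((Unitary.toUnits U)⁻¹ : (Mat N)ˣ) : Mat N) = star (U : Mat N) := rfl
  rw [h3, h4, Matrix.exp_diagonal] at h2
  unfold cd
  rw [h2]
  congr 3
  funext i
  rw [Pi.coe_exp, Complex.exp_eq_exp_ℂ]

theorem smul_cd (U : Matrix.unitaryGroup (Fin N) ℂ) (d : Fin N → ℂ) (s : ℝ) :
    s • cd U d = cd U (fun i => (s : ℂ) * d i) := by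
  unfold cd
  rw [← Matrix.smul_mul, ← Matrix.mul_smul, ← Matrix.diagonal_smul]
  congr 3

theorem add_cd (U : Matrix.unitaryGroup (Fin N) ℂ) (d d' : Fin N → ℂ) :
    cd U d + cd U d' = cd U (fun i => d i + d' i) := by
  unfold cd
  rw [← Matrix.add_mul, ← Matrix.mul_add, Matrix.diagonal_add]

theorem sum_cd {ι : Type} (s : Finset ι) (U : Matrix.unitaryGroup (Fin N) ℂ)
    (d : ι → Fin N → ℂ) : ∑ j ∈ s, cd U (d j) = cd U (fun i => ∑ j ∈ s, d j i) := by
  classical
  induction s using Finset.induction_on with
  | empty => simp [cd]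
  | insert a s ha ih =>
    rw [Finset.sum_insert ha, ih, add_cd]
    congr 1
    funext i
    rw [Finset.sum_insert ha]

theorem cd_one (U : Matrix.unitaryGroup (Fin N) ℂ) : cd U (fun _ => 1) = 1 := by
  unfold cd
  rw [Matrix.diagonal_one, mul_one]
  exact Matrix.mem_unitaryGroup_iff.1 U.2

theorem exists_cd {A : Mat N} (hA : Aᴴ = -A) :
    ∃ (U : Matrix.unitaryGroup (Fin N) ℂ) (a : Fin N → ℝ), A = cd U (fun i => Complex.I * a i) := by
  have hH : ((Complex.I) • A).IsHermitian := by
    rw [Matrix.IsHermitian, conjTranspose_smul, hA, smul_neg]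
    simp
  refine ⟨hH.eigenvectorUnitary, fun i => -hH.eigenvalues i, ?_⟩
  have h0 : A = (-Complex.I) • (Complex.I • A) := by
    rw [smul_smul]
    simp
  have h1 := hH.spectral_theorem
  rw [Unitary.conjStarAlgAut_apply] at h1
  conv_lhs => rw [h0, h1]
  unfold cd
  rw [← Matrix.smul_mul, ← Matrix.mul_smul, ← Matrix.diagonal_smul]
  congr 3
  funext i
  simp

theorem exp_two_pi_int (m : ℤ) : Complex.exp (((2 * Real.pi : ℝ) : ℂ) * (Complex.I * (m : ℂ))) = 1 := by
  rw [Complex.exp_eq_one_iff]
  exact ⟨m, by push_cast; ring⟩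

/-- elements of the Lie algebra of a compact matrix group are real combinations of commuting
closed elements -/
theorem exists_closed (G : CGroup N) {A : Mat N} (hA : A ∈ lieAlg G) :
    ∃ (r : ℕ) (C : Fin r → Mat N) (b : Fin r → ℝ), A = ∑ j, b j • C j ∧ (∀ j, C j ∈ lieAlg G) ∧
      (∀ j, NormedSpace.exp ((2 * Real.pi) • C j) = 1) ∧
      ∀ j k, NormedSpace.exp ((2 * Real.pi) • (C j + C k)) = 1 := by
  obtain ⟨U, a, hUa⟩ := exists_cd (skew G hA)
  have hfin : Module.Finite ℤ (Submodule.span ℤ (Set.range a)) :=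
    Module.Finite.span_of_finite ℤ (Set.finite_range a)
  have hfree : Module.Free ℤ (Submodule.span ℤ (Set.range a)) := inferInstance
  set r := finrank ℤ (Submodule.span ℤ (Set.range a)) with hr
  let B : Basis (Fin r) ℤ (Submodule.span ℤ (Set.range a)) := Module.finBasis ℤ _
  set b : Fin r → ℝ := fun j => (B j : ℝ) with hb
  set x : Fin N → Submodule.span ℤ (Set.range a) := fun k =>
    ⟨a k, Submodule.subset_span (Set.mem_range_self k)⟩ with hx
  set m : Fin N → Fin r → ℤ := fun k j => B.repr (x k) j with hm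
  have hak : ∀ k, a k = ∑ j, (m k j : ℝ) * b j := by
    intro k
    have h1 := congrArg (fun y : Submodule.span ℤ (Set.range a) => (y : ℝ)) (B.sum_repr (x k))
    simp only [hx] at h1
    rw [← h1]
    push_cast
    refine Finset.sum_congr rfl fun j _ => ?_
    simp [hm, hx, hb]
  have hind : ∀ n : Fin r → ℤ, ∑ i, (n i : ℝ) * b i = 0 → n = 0 := by
    intro n hn
    have h1 := Fintype.linearIndependent_iff.1 B.linearIndependent n
    have h2 : ∑ i, n i • B i = 0 := by
      apply Subtype.ext
      push_cast
      rw [← hn]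
      refine Finset.sum_congr rfl fun j _ => ?_
      simp [hb]
    exact funext (h1 h2)
  -- the torus in `G`
  set Φ : UnitAddTorus (Fin r) → Mat N := fun y => cd U (fun k => mFourier (m k) y) with hΦ
  have hΦc : Continuous Φ := by
    have : Continuous (fun y : UnitAddTorus (Fin r) => (U : Mat N) *
        diagonal (fun k => mFourier (m k) y) * star (U : Mat N)) := by
      refine (continuous_const.matrix_mul ?_).matrix_mul continuous_const
      exact (continuous_pi fun k => (mFourier (m k)).continuous).matrix_diagonal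
    exact this
  have hline : ∀ t, Φ (ln b t) ∈ G.S := by
    intro t
    have h1 : Φ (ln b t) = NormedSpace.exp ((2 * Real.pi * t) • A) := by
      rw [hUa, smul_cd, exp_cd]
      simp only [hΦ]
      congr 1
      funext k
      rw [mFourier_ln, ← hak]
      congr 1
      push_cast
      ring
    rw [h1]
    exact hA _
  have hall : ∀ y, Φ y ∈ G.S := by
    intro y
    have hne : (G.S : Set (Mat N)).Nonempty := ⟨1, G.S.one_mem⟩
    have h1 := kronecker b hind (fun y => Metric.infDist (Φ y) (G.S : Set (Mat N)))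
      ((Metric.continuous_infDist_pt _).comp hΦc) (fun y => Metric.infDist_nonneg)
      (fun t => Metric.infDist_zero_of_mem (hline t)) y
    exact (G.isClosed.mem_iff_infDist_zero hne).2 h1
  refine ⟨r, fun j => cd U (fun k => Complex.I * (m k j : ℂ)), b, ?_, ?_, ?_, ?_⟩
  · conv_lhs => rw [hUa]
    simp only [smul_cd]
    rw [sum_cd]
    congr 1
    funext k
    rw [hak k]
    push_cast
    rw [Finset.mul_sum]
    refine Finset.sum_congr rfl fun j _ => ?_
    ring
  · intro j s
    have h1 : Φ (ln (Pi.single j 1) (s / (2 * Real.pi))) =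
        NormedSpace.exp (s • cd U (fun k => Complex.I * (m k j : ℂ))) := by
      rw [smul_cd, exp_cd]
      simp only [hΦ]
      congr 1
      funext k
      rw [mFourier_ln]
      have : ∑ i, (m k i : ℝ) * (Pi.single j (1 : ℝ) : Fin r → ℝ) i = m k j := by
        rw [Finset.sum_eq_single j]
        · simp
        · intro i _ hi
          simp [Pi.single_eq_of_ne hi]
        · simp
      rw [this]
      congr 1
      have hpi : (Real.pi : ℂ) ≠ 0 := Complex.ofReal_ne_zero.2 Real.pi_ne_zero
      push_cast
      field_simp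
    rw [← h1]
    exact hall _
  · intro j
    rw [smul_cd, exp_cd]
    simp only [exp_two_pi_int]
    exact cd_one U
  · intro j k
    rw [add_cd, smul_cd, exp_cd]
    have : ∀ i, Complex.exp (((2 * Real.pi : ℝ) : ℂ) * (Complex.I * (m i j : ℂ) +
        Complex.I * (m i k : ℂ))) = 1 := by
      intro i
      have := exp_two_pi_int (m i j + m i k)
      rwa [Int.cast_add, mul_add Complex.I] at this
    simp only [this]
    exact cd_one U

end Pool.Agent.TH109.CG
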