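import Pool.Agent.TH109.CG.Weights
import Pool.Agent.H842R4.Base

/-!
Construction of a torus datum.
-/

open Module Pool.Agent.H842R4

noncomputable section

namespace Pool.Agent.TH109.CG

variable {P 𝔤 : Type} [NormedAddCommGroup 𝔤] [InnerProductSpace ℝ 𝔤]

/-- the square of the functional `⟨·, C⟩` -/
def sq (C : 𝔤) : 𝔤 × 𝔤 → ℝ := fun p => inner ℝ p.1 C * inner ℝ p.2 C

theorem sq_smul (c : ℝ) (C : 𝔤) : sq (c • C) = (c ^ 2) • sq C := by
  funext p
  simp only [sq, Pi.smul_apply, real_inner_smul_right, smul_eq_mul]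
  ring

theorem dep_of_not_indep {X Y C : 𝔤} (h : LinearIndependent ℝ ![X, Y])
    (h' : ¬ LinearIndependent ℝ ![X, Y, C]) : ∃ α β : ℝ, C = α • X + β • Y := by
  rw [Fintype.linearIndependent_iff] at h'
  push Not at h'
  obtain ⟨g, hg, i, hi⟩ := h'
  simp only [Fin.sum_univ_three, Matrix.cons_val_zero, Matrix.cons_val_one, Matrix.cons_val] at hg
  by_cases h2 : g 2 = 0
  · exfalso
    rw [h2, zero_smul, add_zero] at hg
    obtain ⟨e0, e1⟩ := LinearIndependent.pair_iff.1 h _ _ hg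
    fin_cases i
    · exact hi e0
    · exact hi e1
    · exact hi h2
  · refine ⟨-(g 2)⁻¹ * g 0, -(g 2)⁻¹ * g 1, ?_⟩
    have h3 : g 2 • C = -(g 0 • X + g 1 • Y) := by
      rw [eq_neg_iff_add_eq_zero, add_comm]
      exact hg
    calc C = (g 2)⁻¹ • (g 2 • C) := by rw [smul_smul, inv_mul_cancel₀ h2, one_smul]
      _ = _ := by
        rw [h3, smul_neg, smul_add, smul_smul, smul_smul, neg_add, neg_mul, neg_mul, neg_smul,
          neg_smul]

theorem exists_datum [FiniteDimensional ℝ 𝔤] (K : Calc P 𝔤) (X Y : 𝔤) (hXY : K.br X Y = 0)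
    (clX : K.Cl X) (clY : K.Cl Y) (ind : LinearIndependent ℝ ![X, Y])
    (hint : ∀ (μ ν : ℝ) (A B : 𝔤), ‖A‖ = 1 → inner ℝ A B = (0 : ℝ) → K.br X A = μ • B →
      K.br X B = -(μ • A) →
      K.br Y A = ν • B → K.br Y B = -(ν • A) → (μ ≠ 0 ∨ ν ≠ 0) →
      ∃ m n r s : ℤ, μ = m ∧ ν = n ∧ r * m + s * n = 1)
    (hsq : ∀ A, K.br X A = 0 → K.br Y A = 0 →
      sq A ∈ Submodule.span ℝ (sq '' {C | K.Cl C ∧ K.br X C = 0 ∧ K.br Y C = 0})) :
    Nonempty (TorusDatum K) := by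
  classical
  have h1 : ∀ u v : 𝔤, inner ℝ (K.br X u) v = - inner ℝ u (K.br X v) := by
    intro u v
    rw [K.br_anti X u, inner_neg_left, K.ad_inv]
  have h2 : ∀ u v : 𝔤, inner ℝ (K.br Y u) v = - inner ℝ u (K.br Y v) := by
    intro u v
    rw [K.br_anti Y u, inner_neg_left, K.ad_inv]
  have hc : ∀ u, K.br X (K.br Y u) = K.br Y (K.br X u) := by
    intro u
    rw [K.jac, hXY, LinearMap.map_zero, LinearMap.zero_apply, zero_add]
  obtain ⟨ι0, ιR, f0, fR, e, μ, ν, Z1, Z2, he, -, hw, hne, ho, hp⟩ :=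
    exists_weights (K.br X) (K.br Y) h1 h2 hc _ ⊤ le_rfl (fun _ _ => trivial) (fun _ _ => trivial)
  have hsum : ∑ i, sq (e i) ∈
      Submodule.span ℝ (sq '' {C | K.Cl C ∧ K.br X C = 0 ∧ K.br Y C = 0}) :=
    Submodule.sum_mem _ fun i _ => hsq (e i) (he i).2.1 (he i).2.2
  obtain ⟨n, f, g, hfg⟩ := Submodule.mem_span_set'.1 hsum
  have hg : ∀ i, ∃ C : 𝔤, (K.Cl C ∧ K.br X C = 0 ∧ K.br Y C = 0) ∧ sq C = (g i : 𝔤 × 𝔤 → ℝ) :=
    fun i => (g i).2
  choose C hC hCg using hg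
  have hdep : ∀ i, ∃ α β : ℝ, ¬ LinearIndependent ℝ ![X, Y, C i] → C i = α • X + β • Y := by
    intro i
    by_cases h : LinearIndependent ℝ ![X, Y, C i]
    · exact ⟨0, 0, fun h' => absurd h h'⟩
    · obtain ⟨α, β, hab⟩ := dep_of_not_indep ind h
      exact ⟨α, β, fun _ => hab⟩
  choose α β hαβ using hdep
  have ho1 : ∀ a, ‖Z1 a‖ = 1 := fun a => ho.1 (Sum.inl a)
  have ho2 : ∀ a, inner ℝ (Z1 a) (Z2 a) = (0 : ℝ) := fun a => ho.2 (i := Sum.inl a) (j := Sum.inr a) (by simp)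
  have hwt : ∀ a, ∃ m n r s : ℤ, μ a = m ∧ ν a = n ∧ r * m + s * n = 1 := fun a =>
    hint (μ a) (ν a) (Z1 a) (Z2 a) (ho1 a) (ho2 a) (hw a).1 (hw a).2.1 (hw a).2.2.1 (hw a).2.2.2
      (hne a)
  choose m n' r s hm hn hrs using hwt
  have key : ∀ u v : 𝔤, ∑ i, inner ℝ u (e i) * inner ℝ v (e i) =
      ∑ i, f i * (inner ℝ u (C i) * inner ℝ v (C i)) := by
    intro u v
    have h3 := congrFun hfg (u, v)
    simp only [Finset.sum_apply, Pi.smul_apply, ← hCg, smul_eq_mul, sq] at h3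
    exact h3.symm
  refine ⟨{
    X := X
    Y := Y
    brXY := hXY
    clX := clX
    clY := clY
    ind := ind
    q11 := ∑ i, if LinearIndependent ℝ ![X, Y, C i] then 0 else f i * (α i * α i)
    q12 := ∑ i, if LinearIndependent ℝ ![X, Y, C i] then 0 else f i * (α i * β i)
    q22 := ∑ i, if LinearIndependent ℝ ![X, Y, C i] then 0 else f i * (β i * β i)
    ιC := {i // LinearIndependent ℝ ![X, Y, C i]}
    fC := inferInstance
    C := fun i => C i.1
    w := fun i => f i.1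
    clC := fun i => (hC i.1).1
    brXC := fun i => (hC i.1).2.1
    brYC := fun i => (hC i.1).2.2
    indC := fun i => i.2
    ιR := ιR
    fR := fR
    m := m
    n := n'
    r := r
    s := s
    unim := hrs
    Z1 := Z1
    Z2 := Z2
    brX1 := fun a => by rw [← hm]; exact (hw a).1
    brX2 := fun a => by rw [← hm]; exact (hw a).2.1
    brY1 := fun a => by rw [← hn]; exact (hw a).2.2.1
    brY2 := fun a => by rw [← hn]; exact (hw a).2.2.2
    orth := ho
    parseval := ?_ }⟩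
  intro u v
  rw [hp u v trivial, key]
  congr 1
  have h5 : ∑ i : {i // LinearIndependent ℝ ![X, Y, C i]},
      f i.1 * (inner ℝ u (C i.1) * inner ℝ v (C i.1)) =
      ∑ i, if LinearIndependent ℝ ![X, Y, C i] then
        f i * (inner ℝ u (C i) * inner ℝ v (C i)) else 0 := by
    rw [← Finset.sum_filter]
    exact (Finset.sum_subtype (Finset.univ.filter fun i => LinearIndependent ℝ ![X, Y, C i])
      (by simp) (fun i => f i * (inner ℝ u (C i) * inner ℝ v (C i)))).symm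
  rw [h5, Finset.sum_mul, Finset.sum_mul, Finset.sum_mul, ← Finset.sum_add_distrib,
    ← Finset.sum_add_distrib, ← Finset.sum_add_distrib]
  refine Finset.sum_congr rfl fun i _ => ?_
  by_cases h : LinearIndependent ℝ ![X, Y, C i]
  · simp only [if_pos h]
    ring
  · simp only [if_neg h]
    rw [hαβ i h]
    simp only [inner_add_right, real_inner_smul_right]
    ring

end Pool.Agent.TH109.CG
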