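import Pool.Agent.TH109.CG.CalcG
import Pool.Agent.H842R4.Asm4

/-!
Second order rigidity of the bi-invariant metric of a compact matrix group with a torus datum.
-/

open scoped ContDiff Matrix.Norms.Frobenius Topology
open Matrix Filter Pool.Agent.H842R4

noncomputable section

namespace Pool.Agent.TH109.CG

variable {N : ℕ} {G : CGroup N}

theorem inner_lie (A B : lieAlg G) : inner ℝ A B = ip A B := rfl

theorem ip_add_right (A B C : lieAlg G) : ip A (B + C) = ip A B + ip A C := inner_add_right A B C

theorem ip_smul_right (A B : lieAlg G) (c : ℝ) : ip A (c • B) = c * ip A B :=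
  real_inner_smul_right A B c

theorem ip_add_left (A B C : lieAlg G) : ip (A + B) C = ip A C + ip B C := inner_add_left A B C

theorem ip_smul_left (A B : lieAlg G) (c : ℝ) : ip (c • A) B = c * ip A B :=
  real_inner_smul_left A B c

/-- component of `g - g₀`, divided by `t`, as a smooth function -/
def hFun (g : Metric G) (t : ℝ) (A B : lieAlg G) : smoothAlg G :=
  t⁻¹ • ((⟨fun p => g.val p A B, g.smooth A B⟩ : smoothAlg G) - algebraMap ℝ _ (ip A B))

theorem hFun_apply (g : Metric G) (t : ℝ) (A B : lieAlg G) (p : Pt G) :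
    (hFun g t A B : Pt G → ℝ) p = t⁻¹ * (g.val p A B - ip A B) := rfl

/-- `(g - g₀)/t` as a bilinear map -/
def hMap (g : Metric G) (t : ℝ) : lieAlg G →ₗ[ℝ] lieAlg G →ₗ[ℝ] smoothAlg G :=
  LinearMap.mk₂ ℝ (hFun g t)
    (fun A B C => by
      apply Subtype.ext; funext p
      show _ = (hFun g t A C : Pt G → ℝ) p + (hFun g t B C : Pt G → ℝ) p
      simp only [hFun_apply, map_add, LinearMap.add_apply, ip_add_left]
      ring)
    (fun c A B => by
      apply Subtype.ext; funext p
      show _ = c * (hFun g t A B : Pt G → ℝ) p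
      simp only [hFun_apply, map_smul, LinearMap.smul_apply, ip_smul_left, smul_eq_mul]
      ring)
    (fun A B C => by
      apply Subtype.ext; funext p
      show _ = (hFun g t A B : Pt G → ℝ) p + (hFun g t A C : Pt G → ℝ) p
      simp only [hFun_apply, map_add, ip_add_right]
      ring)
    (fun c A B => by
      apply Subtype.ext; funext p
      show _ = c * (hFun g t A B : Pt G → ℝ) p
      simp only [hFun_apply, map_smul, ip_smul_right, smul_eq_mul]
      ring)

theorem met_coe (g : Metric G) (t : ℝ) (ht : t ≠ 0) (A B : lieAlg G) :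
    (((gCalc G).met t (hMap g t) A B : smoothAlg G) : Pt G → ℝ) = fun p => g.val p A B := by
  funext p
  show (ip A B : ℝ) + t * (t⁻¹ * (g.val p A B - ip A B)) = _
  field_simp
  ring

theorem eta_coe (g : Metric G) (t : ℝ) (ht : t ≠ 0) (A B C : lieAlg G) :
    (((gCalc G).eta ((gCalc G).met t (hMap g t)) A B C : smoothAlg G) : Pt G → ℝ) =
      g.koszul A B C := by
  funext p
  have h1 : (((gCalc G).eta ((gCalc G).met t (hMap g t)) A B C : smoothAlg G) : Pt G → ℝ) p =
      (1 / 2 : ℝ) * (lie A (((gCalc G).met t (hMap g t) B C : smoothAlg G) : Pt G → ℝ) p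
        + lie B (((gCalc G).met t (hMap g t) A C : smoothAlg G) : Pt G → ℝ) p
        - lie C (((gCalc G).met t (hMap g t) A B : smoothAlg G) : Pt G → ℝ) p
        + (((gCalc G).met t (hMap g t) (brk A B) C : smoothAlg G) : Pt G → ℝ) p
        - (((gCalc G).met t (hMap g t) (brk A C) B : smoothAlg G) : Pt G → ℝ) p
        - (((gCalc G).met t (hMap g t) (brk B C) A : smoothAlg G) : Pt G → ℝ) p) := rfl
  rw [h1]
  simp only [met_coe g t ht, Metric.koszul]
  ring

theorem Metric.gram_pos (g : Metric G) (p : Pt G) (A B : lieAlg G)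
    (hi : LinearIndependent ℝ ![A, B]) :
    0 < g.val p A A * g.val p B B - g.val p A B ^ 2 := by
  have hp := LinearIndependent.pair_iff.1 hi
  have hB : B ≠ 0 := by
    rintro rfl
    have := hp 0 1 (by simp)
    exact one_ne_zero this.2
  have h1 := g.pos p B hB
  have hv : g.val p B B • A + (-(g.val p A B)) • B ≠ 0 := fun h0 => h1.ne' (hp _ _ h0).1
  have h2 := g.pos p _ hv
  have h3 : g.val p (g.val p B B • A + (-(g.val p A B)) • B) (g.val p B B • A + (-(g.val p A B)) • B)
      = g.val p B B * (g.val p A A * g.val p B B - g.val p A B ^ 2) := by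
    simp only [map_add, map_smul, LinearMap.add_apply, LinearMap.smul_apply, smul_eq_mul,
      g.symm p B A]
    ring
  rw [h3] at h2
  exact (pos_iff_pos_of_mul_pos h2).1 h1

theorem Metric.eq_nabla (g : Metric G) (A B V : lieAlg G) (p : Pt G)
    (h : ∀ C, g.val p V C = g.koszul A B C p) : g.nabla A B p = V := by
  have h1 : ∀ C, g.val p (g.nabla A B p) C = g.koszul A B C p :=
    Classical.epsilon_spec (p := fun V => ∀ C, g.val p V C = g.koszul A B C p) ⟨V, h⟩
  by_contra hne
  have h2 := g.pos p (g.nabla A B p - V) (sub_ne_zero.2 hne)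
  rw [LinearMap.map_sub₂, h1, h, sub_self] at h2
  exact lt_irrefl _ h2

/-- unit vector in the direction of `Z` -/
def unit (Z : lieAlg G) : lieAlg G := ‖Z‖⁻¹ • Z

theorem norm_smul_unit (Z : lieAlg G) : ‖Z‖ • unit Z = Z := by
  unfold unit
  by_cases h : Z = 0
  · simp [h]
  · rw [smul_smul, mul_inv_cancel₀ (norm_ne_zero_iff.2 h), one_smul]

theorem ip_unit (Z : lieAlg G) : ip (unit Z) (unit Z) ≤ 1 := by
  unfold unit
  rw [ip_smul_left, ip_smul_right, ip_self]
  by_cases h : Z = 0
  · simp [h]
  · have := norm_ne_zero_iff.2 h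
    field_simp
    exact le_rfl

theorem Dl_coe (L : List (lieAlg G)) (f : smoothAlg G) :
    (((gCalc G).Dl L f : smoothAlg G) : Pt G → ℝ) = L.foldr lie (f : Pt G → ℝ) := by
  induction L with
  | nil => rfl
  | cons Z L ih =>
    show lie Z (((gCalc G).Dl L f : smoothAlg G) : Pt G → ℝ) = _
    rw [ih]
    rfl

theorem Dl_smul (L : List (lieAlg G)) (c : ℝ) (f : smoothAlg G) :
    (gCalc G).Dl L (c • f) = c • (gCalc G).Dl L f := by
  induction L with
  | nil => rfl
  | cons Z L ih =>
    show (gCalc G).D Z ((gCalc G).Dl L (c • f)) = c • (gCalc G).D Z ((gCalc G).Dl L f)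
    rw [ih]
    exact ((gCalc G).D Z).map_smul c _

theorem Dl_unit (L : List (lieAlg G)) (f : smoothAlg G) :
    (gCalc G).Dl L f = (L.map norm).prod • (gCalc G).Dl (L.map unit) f := by
  induction L with
  | nil => simp [Calc.Dl]
  | cons Z L ih =>
    show (gCalc G).D Z ((gCalc G).Dl L f) =
      (‖Z‖ * (L.map norm).prod) • (gCalc G).D (unit Z) ((gCalc G).Dl (L.map unit) f)
    conv_lhs => rw [ih, ← norm_smul_unit Z]
    have e1 := ((gCalc G).D (‖Z‖ • unit Z)).map_smul (L.map norm).prod
      ((gCalc G).Dl (L.map unit) f)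
    have e2 := LinearMap.congr_fun ((gCalc G).D.map_smul ‖Z‖ (unit Z))
      ((gCalc G).Dl (L.map unit) f)
    refine e1.trans ?_
    refine (congrArg (fun z => (L.map norm).prod • z) e2).trans ?_
    rw [LinearMap.smul_apply, smul_smul, mul_comm]

theorem close_bound (g : Metric G) (t : ℝ) (ht : 0 < t) (hc : g.CloseToBiinvariant t)
    (L : List (lieAlg G)) (hL : L.length ≤ 4) (A B : lieAlg G) (p : Pt G) :
    |(gCalc G).ev p ((gCalc G).Dl L (hMap g t A B))| ≤ (L.map norm).prod * ‖A‖ * ‖B‖ := by
  have h1 : hMap g t A B = (‖A‖ * ‖B‖) • hMap g t (unit A) (unit B) := by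
    conv_lhs => rw [← norm_smul_unit A, ← norm_smul_unit B]
    rw [LinearMap.map_smul₂, map_smul, smul_smul]
  have h0 : (gCalc G).ev p ((gCalc G).Dl L (hMap g t A B)) = (‖A‖ * ‖B‖) *
      ((L.map norm).prod * (gCalc G).ev p ((gCalc G).Dl (L.map unit)
        (hMap g t (unit A) (unit B)))) := by
    rw [h1, Dl_smul, Dl_unit]
    rfl
  rw [h0]
  have h2 : hMap g t (unit A) (unit B) = t⁻¹ •
      (⟨fun p => g.val p (unit A) (unit B) - ip (unit A) (unit B),
        Subalgebra.sub_mem (smoothAlg G) (g.smooth _ _) (smooth_const _)⟩ : smoothAlg G) := rfl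
  have h3 : |(gCalc G).ev p ((gCalc G).Dl (L.map unit) (hMap g t (unit A) (unit B)))| ≤ 1 := by
    have h4 := hc (L.map unit) (by simpa using hL)
      (by
        intro Z hZ
        obtain ⟨Z', _, rfl⟩ := List.mem_map.1 hZ
        exact ip_unit Z') (unit A) (unit B) (ip_unit A) (ip_unit B) p
    have h5 : (gCalc G).ev p ((gCalc G).Dl (L.map unit)
      (⟨fun p => g.val p (unit A) (unit B) - ip (unit A) (unit B),
        Subalgebra.sub_mem (smoothAlg G) (g.smooth _ _) (smooth_const _)⟩ : smoothAlg G)) =
        ((L.map unit).foldr lie (fun q => g.val q (unit A) (unit B) - ip (unit A) (unit B))) p := by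
      show (((gCalc G).Dl (L.map unit) _ : smoothAlg G) : Pt G → ℝ) p = _
      rw [Dl_coe]
    have h7 : (gCalc G).ev p ((gCalc G).Dl (L.map unit) (hMap g t (unit A) (unit B))) =
        t⁻¹ * (gCalc G).ev p ((gCalc G).Dl (L.map unit)
      (⟨fun p => g.val p (unit A) (unit B) - ip (unit A) (unit B),
        Subalgebra.sub_mem (smoothAlg G) (g.smooth _ _) (smooth_const _)⟩ : smoothAlg G)) := by
      rw [h2, Dl_smul]
      rfl
    rw [h7, h5, abs_mul, abs_of_pos (inv_pos.2 ht), inv_mul_le_iff₀ ht, mul_one]
    exact h4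
  have h6 : 0 ≤ (L.map norm).prod := by
    apply List.prod_nonneg
    intro x hx
    obtain ⟨Z, _, rfl⟩ := List.mem_map.1 hx
    exact norm_nonneg _
  generalize (gCalc G).ev p ((gCalc G).Dl (L.map unit) (hMap g t (unit A) (unit B))) = x at *
  rw [abs_mul, abs_mul (L.map norm).prod, abs_of_nonneg h6,
    abs_of_nonneg (by positivity : 0 ≤ ‖A‖ * ‖B‖)]
  calc ‖A‖ * ‖B‖ * ((L.map norm).prod * |x|) ≤ ‖A‖ * ‖B‖ * ((L.map norm).prod * 1) := by gcongr
    _ = _ := by ring

/-- Second order rigidity of the bi-invariant metric of a compact matrix group for which there is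
no sequence of metrics as in `Pert`. -/
theorem rigid_of_contra (hc : ∀ _ : Pert (gCalc G), False) : SecondOrderRigid G := by
  by_contra hneg
  unfold SecondOrderRigid at hneg
  push Not at hneg
  obtain ⟨ε, hε, hneg⟩ := hneg
  have hj : ∀ j : ℕ, ∃ (g : Metric G) (t : ℝ), 0 < t ∧ t ≤ 1 / ((j : ℝ) + 1) ∧
      g.CloseToBiinvariant t ∧ ∀ (p : Pt G) (A B : lieAlg G), LinearIndependent ℝ ![A, B] →
        ε * t ^ 2 < g.sec A B p := by
    intro j
    obtain ⟨g, t, h1, h2, h3, h4⟩ := hneg (1 / ((j : ℝ) + 1)) (by positivity)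
    exact ⟨g, t, h1, h2, h3, h4⟩
  choose g t h1 h2 h3 h4 using hj
  have htl : Tendsto t atTop (𝓝 0) :=
    squeeze_zero (fun j => (h1 j).le) h2 tendsto_one_div_add_atTop_nhds_zero_nat
  let S : Pert (gCalc G) :=
    { t := t
      t_pos := h1
      t_lim := htl
      h := fun j => hMap (g j) (t j)
      symm := by
        intro j A B
        apply Subtype.ext; funext p
        show (t j)⁻¹ * ((g j).val p A B - ip A B) = (t j)⁻¹ * ((g j).val p B A - ip B A)
        rw [(g j).symm p A B, ip_comm A B]
      bound := fun j L hL A B p => close_bound (g j) (t j) (h1 j) (h3 j) L hL A B p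
      ε := ε
      ε_pos := hε
      pos := by
        intro j p A B hi VAA VAB VBA VBB a1 a2 a3 a4
        have hi' : LinearIndependent ℝ ![A, B] := hi
        have hne := (h1 j).ne'
        have hm : ∀ (A B : lieAlg G) (p : Pt G), (gCalc G).ev p
            ((gCalc G).met (t j) (hMap (g j) (t j)) A B) = (g j).val p A B :=
          fun A B p => congrFun (met_coe (g j) (t j) hne A B) p
        have he : ∀ (A B C : lieAlg G) (p : Pt G), (gCalc G).ev p
            ((gCalc G).eta ((gCalc G).met (t j) (hMap (g j) (t j))) A B C) =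
            (g j).koszul A B C p :=
          fun A B C p => congrFun (eta_coe (g j) (t j) hne A B C) p
        have hD : ∀ (Z A B C : lieAlg G) (p : Pt G), (gCalc G).ev p ((gCalc G).D Z
            ((gCalc G).eta ((gCalc G).met (t j) (hMap (g j) (t j))) A B C)) =
            lie Z ((g j).koszul A B C) p := by
          intro Z A B C p
          show lie Z (((gCalc G).eta ((gCalc G).met (t j) (hMap (g j) (t j))) A B C :
            smoothAlg G) : Pt G → ℝ) p = _
          rw [eta_coe (g j) (t j) hne A B C]
        have b1 := (g j).eq_nabla A A VAA p fun C => by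
          have := a1 C
          rwa [hm, he] at this
        have b2 := (g j).eq_nabla A B VAB p fun C => by
          have := a2 C
          rwa [hm, he] at this
        have b3 := (g j).eq_nabla B A VBA p fun C => by
          have := a3 C
          rwa [hm, he] at this
        have b4 := (g j).eq_nabla B B VBB p fun C => by
          have := a4 C
          rwa [hm, he] at this
        have c1 : (gCalc G).num ((gCalc G).met (t j) (hMap (g j) (t j))) p A B VAA VAB VBA VBB =
            (g j).curv A B p := by
          simp only [Calc.num, hD, hm, Metric.curv, b1, b2, b3, b4]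
          have := he (brk A B) B A p
          have e : (gCalc G).br A B = brk A B := rfl
          rw [e, this]
          ring
        have c2 : (gCalc G).gram ((gCalc G).met (t j) (hMap (g j) (t j))) p A B =
            (g j).val p A A * (g j).val p B B - (g j).val p A B ^ 2 := by
          simp only [Calc.gram, hm]
        have c3 := (g j).gram_pos p A B hi'
        have c4 := h4 j p A B hi'
        rw [Metric.sec, lt_div_iff₀ c3] at c4
        rw [c1, c2]
        exact c4 }
  exact hc S

/-- Second order rigidity of the bi-invariant metric of a compact matrix group with a torus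
datum. -/
theorem rigid_of_datum (T : TorusDatum (gCalc G)) : SecondOrderRigid G :=
  rigid_of_contra fun S => Pert.contra S T

end Pool.Agent.TH109.CG

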