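import Mathlib

/-!
Compact matrix groups and their Lie algebras.
-/

open scoped ContDiff Matrix.Norms.Frobenius Topology
open Matrix Filter

noncomputable section

namespace Pool.Agent.TH109.CG

/-- complex `N × N` matrices -/
abbrev Mat (N : ℕ) := Matrix (Fin N) (Fin N) ℂ

/-- A compact matrix group: a closed subgroup of the unitary group `U(N)`. -/
structure CGroup (N : ℕ) where
  S : Submonoid (Mat N)
  unitary : ∀ p ∈ S, p ∈ Matrix.unitaryGroup (Fin N) ℂ
  star_mem : ∀ p ∈ S, star p ∈ S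
  isClosed : IsClosed (S : Set (Mat N))

variable {N : ℕ}

/-- bound of the norms of unitary matrices -/
def uB (N : ℕ) : ℝ := (∑ _i : Fin N, ∑ _j : Fin N, (1 : ℝ)) ^ (1 / 2 : ℝ)

theorem uB_nonneg : 0 ≤ uB N :=
  Real.rpow_nonneg (Finset.sum_nonneg fun _ _ => Finset.sum_nonneg fun _ _ => zero_le_one) _

theorem norm_unitary_le {p : Mat N} (hp : p ∈ Matrix.unitaryGroup (Fin N) ℂ) : ‖p‖ ≤ uB N := by
  rw [Matrix.frobenius_norm_def]
  apply Real.rpow_le_rpow
  · exact Finset.sum_nonneg fun i _ => Finset.sum_nonneg fun j _ => by positivity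
  · refine Finset.sum_le_sum fun i _ => Finset.sum_le_sum fun j _ => ?_
    have h1 : ‖p i j‖ ≤ 1 := entry_norm_bound_of_unitary hp i j
    exact Real.rpow_le_one (norm_nonneg _) h1 (by norm_num)
  · norm_num

theorem exp_neg_mul_exp (X : Mat N) : NormedSpace.exp (-X) * NormedSpace.exp X = 1 := by
  rw [Matrix.exp_neg]
  exact Matrix.nonsing_inv_mul _ ((Matrix.isUnit_iff_isUnit_det _).1 (Matrix.isUnit_exp _))

theorem exp_mul_exp_neg (X : Mat N) : NormedSpace.exp X * NormedSpace.exp (-X) = 1 := by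
  rw [Matrix.exp_neg]
  exact Matrix.mul_nonsing_inv _ ((Matrix.isUnit_iff_isUnit_det _).1 (Matrix.isUnit_exp _))

theorem exp_mul_exp (A B : Mat N) (h : Commute A B) :
    NormedSpace.exp (A + B) = NormedSpace.exp A * NormedSpace.exp B :=
  Matrix.exp_add_of_commute A B h

/-- the exponential of a skew-Hermitian matrix is unitary -/
theorem exp_unitary {A : Mat N} (hA : Aᴴ = -A) :
    NormedSpace.exp A ∈ Matrix.unitaryGroup (Fin N) ℂ := by
  rw [Matrix.mem_unitaryGroup_iff, star_eq_conjTranspose, ← Matrix.exp_conjTranspose, hA,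
    exp_mul_exp_neg]

theorem smul_skew {A : Mat N} (hA : Aᴴ = -A) (s : ℝ) : (s • A)ᴴ = -(s • A) := by
  rw [conjTranspose_smul, hA, star_trivial, smul_neg]

theorem hasDerivAt_exp (A : Mat N) (s : ℝ) :
    HasDerivAt (fun u : ℝ => NormedSpace.exp (u • A)) (NormedSpace.exp (s • A) * A) s := by
  have : CompleteSpace (Mat N) := FiniteDimensional.complete ℝ (Mat N)
  exact hasDerivAt_exp_smul_const A s

/-- elements of the Lie algebra of a unitary group are skew-Hermitian -/
theorem skew_of_exp {A : Mat N}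
    (h : ∀ s : ℝ, NormedSpace.exp (s • A) ∈ Matrix.unitaryGroup (Fin N) ℂ) : Aᴴ = -A := by
  have h1 : ∀ s : ℝ, NormedSpace.exp (s • A) * NormedSpace.exp (s • Aᴴ) = 1 := by
    intro s
    have h2 := h s
    rw [Matrix.mem_unitaryGroup_iff, star_eq_conjTranspose, ← Matrix.exp_conjTranspose,
      conjTranspose_smul, star_trivial] at h2
    exact h2
  have h3 := (hasDerivAt_exp A 0).mul (hasDerivAt_exp Aᴴ 0)
  have h4 : (fun s : ℝ => NormedSpace.exp (s • A) * NormedSpace.exp (s • Aᴴ)) = fun _ => 1 :=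
    funext h1
  have h6 : HasDerivAt (fun s : ℝ => NormedSpace.exp (s • A) * NormedSpace.exp (s • Aᴴ)) 0 0 := by
    rw [h4]; exact hasDerivAt_const _ _
  have h5 := h3.unique h6
  simp only [zero_smul, NormedSpace.exp_zero, one_mul, mul_one] at h5
  exact eq_neg_of_add_eq_zero_right h5

theorem pow_sub_le (g h : Mat N) (C : ℝ) (hg : ∀ i : ℕ, ‖g ^ i‖ ≤ C) (hh : ∀ i : ℕ, ‖h ^ i‖ ≤ C)
    (n : ℕ) : ∀ k : ℕ, ‖(g ^ n - h ^ n) * h ^ k‖ ≤ n * (C * C * ‖g - h‖) := by
  have hC : 0 ≤ C := (norm_nonneg _).trans (hg 0)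
  induction n with
  | zero => intro k; simp
  | succ n ih =>
    intro k
    have e : (g ^ (n + 1) - h ^ (n + 1)) * h ^ k =
        g ^ n * (g - h) * h ^ k + (g ^ n - h ^ n) * h ^ (k + 1) := by
      rw [pow_succ, pow_succ, pow_succ' h k]
      noncomm_ring
    rw [e]
    refine (norm_add_le _ _).trans ?_
    have h1 : ‖g ^ n * (g - h) * h ^ k‖ ≤ C * ‖g - h‖ * C :=
      (norm_mul_le _ _).trans (mul_le_mul ((norm_mul_le _ _).trans
        (mul_le_mul_of_nonneg_right (hg n) (norm_nonneg _))) (hh k) (norm_nonneg _)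
        (mul_nonneg hC (norm_nonneg _)))
    have h2 := ih (k + 1)
    push_cast
    linarith

theorem exp_nat_mul (A : Mat N) (n : ℕ) (s : ℝ) :
    NormedSpace.exp (s • A) ^ n = NormedSpace.exp (((n : ℝ) * s) • A) := by
  rw [← Matrix.exp_nsmul, ← Nat.cast_smul_eq_nsmul ℝ, smul_smul]

/-- a weak form of the product formula -/
theorem add_mem_aux (G : CGroup N) {A B : Mat N}
    (hA : ∀ s : ℝ, NormedSpace.exp (s • A) ∈ G.S) (hB : ∀ s : ℝ, NormedSpace.exp (s • B) ∈ G.S)
    (s : ℝ) : NormedSpace.exp (s • (A + B)) ∈ G.S := by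
  have hA1 : Aᴴ = -A := skew_of_exp fun s => G.unitary _ (hA s)
  have hB1 : Bᴴ = -B := skew_of_exp fun s => G.unitary _ (hB s)
  have hAB : (A + B)ᴴ = -(A + B) := by rw [conjTranspose_add, hA1, hB1, neg_add]
  -- `φ(t) = exp(tA) exp(tB) - exp(t(A+B)) = o(t)`
  have h0 : HasDerivAt (fun t : ℝ => NormedSpace.exp (t • A) * NormedSpace.exp (t • B) -
      NormedSpace.exp (t • (A + B))) 0 0 := by
    have h1 := ((hasDerivAt_exp A 0).mul (hasDerivAt_exp B 0)).sub (hasDerivAt_exp (A + B) 0)
    simp only [zero_smul, NormedSpace.exp_zero, one_mul, mul_one, sub_self] at h1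
    exact h1
  have h1 := h0.tendsto_slope_zero
  simp only [zero_add, zero_smul, NormedSpace.exp_zero, one_mul, sub_self, sub_zero] at h1
  -- the sequence
  set g : ℕ → Mat N := fun k => NormedSpace.exp ((s / (k + 1)) • A) *
    NormedSpace.exp ((s / (k + 1)) • B) with hg
  set h : ℕ → Mat N := fun k => NormedSpace.exp ((s / (k + 1)) • (A + B)) with hh
  have hgm : ∀ k i, g k ^ i ∈ G.S := fun k i => G.S.pow_mem (G.S.mul_mem (hA _) (hB _)) i
  have hlim : Tendsto (fun k : ℕ => g k ^ (k + 1)) atTop (𝓝 (NormedSpace.exp (s • (A + B)))) := by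
    have e1 : ∀ k, h k ^ (k + 1) = NormedSpace.exp (s • (A + B)) := by
      intro k
      rw [hh, exp_nat_mul]
      congr 2
      push_cast
      field_simp
    refine tendsto_iff_norm_sub_tendsto_zero.2 ?_
    have e2 : ∀ k, ‖g k ^ (k + 1) - NormedSpace.exp (s • (A + B))‖ ≤
        (uB N * uB N) * (((k : ℝ) + 1) * ‖g k - h k‖) := by
      intro k
      rw [← e1 k]
      have := pow_sub_le (g k) (h k) (uB N) (fun i => norm_unitary_le (G.unitary _ (hgm k i)))
        (fun i => by
          rw [hh, exp_nat_mul]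
          exact norm_unitary_le (exp_unitary (smul_skew hAB _))) (k + 1) 0
      rw [pow_zero, mul_one] at this
      refine this.trans (le_of_eq ?_)
      push_cast
      ring
    refine squeeze_zero (fun k => norm_nonneg _) e2 ?_
    rw [← mul_zero (uB N * uB N)]
    refine Tendsto.const_mul _ ?_
    by_cases hs : s = 0
    · have : ∀ k : ℕ, ((k : ℝ) + 1) * ‖g k - h k‖ = 0 := by
        intro k
        simp [hg, hh, hs]
      simp only [this]
      exact tendsto_const_nhds
    · have t1 : Tendsto (fun k : ℕ => s / ((k : ℝ) + 1)) atTop (𝓝[≠] 0) := by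
        rw [tendsto_nhdsWithin_iff]
        refine ⟨?_, Filter.Eventually.of_forall fun k => ?_⟩
        · have := (tendsto_one_div_add_atTop_nhds_zero_nat (𝕜 := ℝ)).const_mul s
          simpa [div_eq_mul_inv] using this
        · have : (0 : ℝ) < (k : ℝ) + 1 := by positivity
          exact div_ne_zero hs this.ne'
      have t2 := (h1.comp t1).norm
      rw [norm_zero] at t2
      have t3 := t2.const_mul |s|
      rw [mul_zero] at t3
      refine t3.congr fun k => ?_
      have hk : (0 : ℝ) < (k : ℝ) + 1 := by positivity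
      simp only [Function.comp_apply]
      rw [norm_smul, ← mul_assoc, norm_inv, Real.norm_eq_abs, abs_div, abs_of_pos hk]
      have : |s| ≠ 0 := abs_ne_zero.2 hs
      congr 1
      field_simp
  exact G.isClosed.mem_of_tendsto hlim (Filter.Eventually.of_forall fun k => hgm k (k + 1))

/-- The Lie algebra of a compact matrix group `G`: all matrices `A` such that `exp(s A) ∈ G` for
all real `s`. The tangent space of `G` at `p` consists of the matrices `p A`, `A ∈ lieAlg G`. -/
def lieAlg (G : CGroup N) : Submodule ℝ (Mat N) where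
  carrier := {A | ∀ s : ℝ, NormedSpace.exp (s • A) ∈ G.S}
  add_mem' hA hB s := add_mem_aux G hA hB s
  zero_mem' s := by
    rw [smul_zero, NormedSpace.exp_zero]
    exact G.S.one_mem
  smul_mem' c A hA s := by
    rw [smul_smul]
    exact hA _

theorem mem_lieAlg (G : CGroup N) (A : Mat N) :
    A ∈ lieAlg G ↔ ∀ s : ℝ, NormedSpace.exp (s • A) ∈ G.S := Iff.rfl

theorem skew (G : CGroup N) {A : Mat N} (hA : A ∈ lieAlg G) : Aᴴ = -A :=
  skew_of_exp fun s => G.unitary _ (hA s)

/-- conjugation by `exp(s Z)` preserves the Lie algebra -/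
theorem conj_mem (G : CGroup N) {Z A : Mat N} (hZ : Z ∈ lieAlg G) (hA : A ∈ lieAlg G) (s : ℝ) :
    NormedSpace.exp (s • Z) * A * NormedSpace.exp (-(s • Z)) ∈ lieAlg G := by
  intro t
  have h1 : t • (NormedSpace.exp (s • Z) * A * NormedSpace.exp (-(s • Z))) =
      NormedSpace.exp (s • Z) * (t • A) * (NormedSpace.exp (s • Z))⁻¹ := by
    rw [Matrix.exp_neg, Matrix.mul_smul, Matrix.smul_mul]
  rw [h1, Matrix.exp_conj _ _ (Matrix.isUnit_exp _), ← Matrix.exp_neg]
  have h2 : NormedSpace.exp (-(s • Z)) ∈ G.S := by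
    have := hZ (-s)
    rwa [neg_smul] at this
  exact G.S.mul_mem (G.S.mul_mem (hZ s) (hA t)) h2

theorem brk_mem' (G : CGroup N) {A B : Mat N} (hA : A ∈ lieAlg G) (hB : B ∈ lieAlg G) :
    A * B - B * A ∈ lieAlg G := by
  have hcl : IsClosed ((lieAlg G : Submodule ℝ (Mat N)) : Set (Mat N)) :=
    Submodule.closed_of_finiteDimensional _
  have h1 : HasDerivAt (fun u : ℝ => NormedSpace.exp (u • A)) A 0 := by
    have := hasDerivAt_exp A 0
    simpa using this
  have h2 : HasDerivAt (fun u : ℝ => NormedSpace.exp (-(u • A))) (-A) 0 := by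
    have := hasDerivAt_exp (-A) 0
    simpa using this
  have h3 := (h1.mul_const B).mul h2
  simp only [zero_smul, NormedSpace.exp_zero, neg_zero, mul_one, one_mul] at h3
  have h4 := h3.tendsto_slope_zero
  have h5 : A * B + B * -A = A * B - B * A := by noncomm_ring
  rw [h5] at h4
  refine hcl.mem_of_tendsto h4 (Filter.Eventually.of_forall fun t => ?_)
  refine (lieAlg G).smul_mem _ ((lieAlg G).sub_mem (conj_mem G hA hB _) (conj_mem G hA hB _))

end Pool.Agent.TH109.CG
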