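import Pool.Agent.TH109.CG.FinalG
import Pool.Agent.TH109.CG.Datum
import Pool.Agent.TH109.CG.Closed

/-!
Second order rigidity of the bi-invariant metric of a compact matrix group containing a closed
2-torus with primitive weights.
-/

open scoped Matrix.Norms.Frobenius Topology
open Matrix Filter Module Pool.Agent.H842R4

noncomputable section

namespace Pool.Agent.TH109.CG

variable {N : ℕ} {G : CGroup N}

theorem sq_sum_mem {𝔤 : Type} [NormedAddCommGroup 𝔤] [InnerProductSpace ℝ 𝔤] (S : Set 𝔤) {r : ℕ}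
    (C : Fin r → 𝔤) (b : Fin r → ℝ) (h1 : ∀ j, C j ∈ S) (h2 : ∀ j k, C j + C k ∈ S) :
    sq (∑ j, b j • C j) ∈ Submodule.span ℝ (sq '' S) := by
  have e : sq (∑ j, b j • C j) =
      ∑ j, ∑ k, (b j * b k / 2) • (sq (C j + C k) - sq (C j) - sq (C k)) := by
    funext p
    obtain ⟨u, v⟩ := p
    simp only [Finset.sum_apply, Pi.smul_apply, Pi.sub_apply, smul_eq_mul, sq, inner_add_right,
      inner_sum, real_inner_smul_right]
    rw [Finset.sum_mul_sum]
    have h3 : ∑ i, ∑ j, b i * inner ℝ u (C i) * (b j * inner ℝ v (C j)) =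
        ∑ i, ∑ j, b j * inner ℝ u (C j) * (b i * inner ℝ v (C i)) := Finset.sum_comm
    have h4 : ∑ i, ∑ j, b i * inner ℝ u (C i) * (b j * inner ℝ v (C j)) =
        (1 / 2) * (∑ i, ∑ j, b i * inner ℝ u (C i) * (b j * inner ℝ v (C j)) +
          ∑ i, ∑ j, b j * inner ℝ u (C j) * (b i * inner ℝ v (C i))) := by
      rw [← h3]; ring
    rw [h4, ← Finset.sum_add_distrib, Finset.mul_sum]
    refine Finset.sum_congr rfl fun i _ => ?_
    rw [← Finset.sum_add_distrib, Finset.mul_sum]
    refine Finset.sum_congr rfl fun j _ => ?_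
    ring
  rw [e]
  refine Submodule.sum_mem _ fun j _ => Submodule.sum_mem _ fun k _ => Submodule.smul_mem _ _ ?_
  exact Submodule.sub_mem _ (Submodule.sub_mem _
    (Submodule.subset_span ⟨_, h2 j k, rfl⟩) (Submodule.subset_span ⟨_, h1 j, rfl⟩))
    (Submodule.subset_span ⟨_, h1 k, rfl⟩)

/-- the centraliser of two matrices in a compact matrix group -/
def cen (G : CGroup N) (X Y : Mat N) : CGroup N where
  S :=
    { carrier := {p | p ∈ G.S ∧ p * X = X * p ∧ p * Y = Y * p}
      mul_mem' := by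
        rintro p q ⟨h1, h2, h3⟩ ⟨h4, h5, h6⟩
        refine ⟨G.S.mul_mem h1 h4, ?_, ?_⟩
        · rw [mul_assoc, h5, ← mul_assoc, h2, mul_assoc]
        · rw [mul_assoc, h6, ← mul_assoc, h3, mul_assoc]
      one_mem' := ⟨G.S.one_mem, by rw [one_mul, mul_one], by rw [one_mul, mul_one]⟩ }
  unitary p hp := G.unitary p hp.1
  star_mem p hp := by
    have h1 : star p * p = 1 := Matrix.mem_unitaryGroup_iff'.1 (G.unitary _ hp.1)
    have h2 : p * star p = 1 := Matrix.mem_unitaryGroup_iff.1 (G.unitary _ hp.1)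
    have key : ∀ X : Mat N, p * X = X * p → star p * X = X * star p := by
      intro X hX
      calc star p * X = star p * X * (p * star p) := by rw [h2, mul_one]
        _ = star p * (X * p) * star p := by simp only [mul_assoc]
        _ = (star p * p) * X * star p := by rw [← hX]; simp only [mul_assoc]
        _ = X * star p := by rw [h1, one_mul]
    exact ⟨G.star_mem p hp.1, key X hp.2.1, key Y hp.2.2⟩
  isClosed := by
    have h1 : IsClosed {p : Mat N | p * X = X * p} :=
      isClosed_eq (continuous_id.matrix_mul continuous_const)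
        (continuous_const.matrix_mul continuous_id)
    have h2 : IsClosed {p : Mat N | p * Y = Y * p} :=
      isClosed_eq (continuous_id.matrix_mul continuous_const)
        (continuous_const.matrix_mul continuous_id)
    exact G.isClosed.inter (h1.inter h2)

theorem mem_cen_lie {X Y A : Mat N} :
    A ∈ lieAlg (cen G X Y) ↔ A ∈ lieAlg G ∧ A * X = X * A ∧ A * Y = Y * A := by
  constructor
  · intro h
    have key : ∀ Z : Mat N, (∀ s : ℝ, NormedSpace.exp (s • A) * Z = Z * NormedSpace.exp (s • A)) →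
        A * Z = Z * A := by
      intro Z hZ
      have h1 := (hasDerivAt_exp A 0).mul_const Z
      have h2 := (hasDerivAt_exp A 0).const_mul Z
      have h3 : (fun u : ℝ => NormedSpace.exp (u • A) * Z) =
          fun u : ℝ => Z * NormedSpace.exp (u • A) := funext hZ
      rw [h3] at h1
      have h4 := h1.unique h2
      simpa using h4
    exact ⟨fun s => (h s).1, key X fun s => (h s).2.1, key Y fun s => (h s).2.2⟩
  · rintro ⟨h1, h2, h3⟩ s
    have key : ∀ Z : Mat N, A * Z = Z * A →
        NormedSpace.exp (s • A) * Z = Z * NormedSpace.exp (s • A) := by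
      intro Z hZ
      have h5 : Commute Z A := hZ.symm
      have h6 : Commute Z (NormedSpace.exp (s • A)) := Commute.exp_right (h5.smul_right s)
      exact h6.symm
    exact ⟨h1 s, key X h2, key Y h3⟩

theorem brk_eq_zero_iff (X A : lieAlg G) : brk X A = 0 ↔ (A : Mat N) * X = X * A := by
  constructor
  · intro h
    have h2 := congrArg (fun Z : lieAlg G => (Z : Mat N)) h
    exact (sub_eq_zero.1 h2).symm
  · intro h
    apply Subtype.ext
    show (X : Mat N) * A - A * X = 0
    rw [h, sub_self]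

theorem sq_mem (X Y A : lieAlg G) (hX : brk X A = 0) (hY : brk Y A = 0) :
    sq A ∈ Submodule.span ℝ (sq '' {C : lieAlg G | (gCalc G).Cl C ∧ (gCalc G).br X C = 0 ∧
      (gCalc G).br Y C = 0}) := by
  have hA : (A : Mat N) ∈ lieAlg (cen G X Y) :=
    mem_cen_lie.2 ⟨A.2, (brk_eq_zero_iff X A).1 hX, (brk_eq_zero_iff Y A).1 hY⟩
  obtain ⟨r, C, b, h1, h2, h3, h4⟩ := exists_closed _ hA
  have h5 := fun j => mem_cen_lie.1 (h2 j)
  set C' : Fin r → lieAlg G := fun j => ⟨C j, (h5 j).1⟩ with hC'
  have h6 : A = ∑ j, b j • C' j := by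
    apply Subtype.ext
    rw [h1]
    push_cast
    rfl
  have hcl : ∀ D : lieAlg G, NormedSpace.exp ((2 * Real.pi) • (D : Mat N)) = 1 →
      (D : Mat N) * X = X * D → (D : Mat N) * Y = Y * D →
      D ∈ {C : lieAlg G | (gCalc G).Cl C ∧ (gCalc G).br X C = 0 ∧ (gCalc G).br Y C = 0} :=
    fun D hD hDX hDY => ⟨fun p => (move_fix_iff D (2 * Real.pi) p).2 hD,
      (brk_eq_zero_iff X D).2 hDX, (brk_eq_zero_iff Y D).2 hDY⟩
  rw [h6]
  refine sq_sum_mem _ C' b (fun j => hcl _ (h3 j) (h5 j).2.1 (h5 j).2.2) fun j k => ?_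
  refine hcl _ (h4 j k) ?_ ?_
  · show (C j + C k) * (X : Mat N) = X * (C j + C k)
    rw [add_mul, mul_add, (h5 j).2.1, (h5 k).2.1]
  · show (C j + C k) * (Y : Mat N) = Y * (C j + C k)
    rw [add_mul, mul_add, (h5 j).2.2, (h5 k).2.2]

theorem int_of_closed (X A B : lieAlg G) (hX : NormedSpace.exp ((2 * Real.pi) • (X : Mat N)) = 1)
    (μ : ℝ) (hA : ‖A‖ = 1) (hAB : inner ℝ A B = (0 : ℝ)) (h1 : brk X A = μ • B)
    (h2 : brk X B = -(μ • A)) : ∃ m : ℤ, μ = m := by
  have hskew : ∀ U V : lieAlg G, ip (brk X U) V = - ip U (brk X V) := by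
    intro U V
    have h3 := (gCalc G).br_anti X U
    have h4 : brk X U = - brk U X := h3
    have h5 : ip (-brk U X) V = - ip (brk U X) V := inner_neg_left (𝕜 := ℝ) (brk U X) V
    rw [h4, h5, ip_brk]
  have hd : ∀ (V : lieAlg G) (s : ℝ), HasDerivAt (fun u => ip (ad X u A) V)
      (-(ip (ad X s A) (brk X V))) s := by
    intro V s
    have h3 := (ad_der X A s).inner ℝ (hasDerivAt_const s V)
    have h4 : inner ℝ (ad X s A) (0 : lieAlg G) + inner ℝ (brk X (ad X s A)) V =
        -(ip (ad X s A) (brk X V)) := by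
      rw [inner_zero_right, zero_add]
      exact hskew _ _
    rw [h4] at h3
    exact h3
  have hF : ∀ s, HasDerivAt (fun u => ip (ad X u A) A) (-(μ * ip (ad X s A) B)) s := by
    intro s
    have := hd A s
    rwa [h1, ip_smul_right] at this
  have hH : ∀ s, HasDerivAt (fun u => ip (ad X u A) B) (μ * ip (ad X s A) A) s := by
    intro s
    have := hd B s
    have e : ip (ad X s A) (-(μ • A)) = -(μ * ip (ad X s A) A) := by
      have := inner_neg_right (𝕜 := ℝ) (ad X s A) (μ • A)
      have e2 : ip (ad X s A) (-(μ • A)) = - ip (ad X s A) (μ • A) := this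
      rw [e2, ip_smul_right]
    rw [h2, e, neg_neg] at this
    exact this
  have hcos : ∀ s : ℝ, HasDerivAt (fun u => Real.cos (μ * u)) (-(μ * Real.sin (μ * s))) s := by
    intro s
    have := ((hasDerivAt_id s).const_mul μ).cos
    simp only [id, mul_one] at this
    refine this.congr_deriv ?_
    ring
  have hsin : ∀ s : ℝ, HasDerivAt (fun u => Real.sin (μ * u)) (μ * Real.cos (μ * s)) s := by
    intro s
    have := ((hasDerivAt_id s).const_mul μ).sin
    simp only [id, mul_one] at this
    refine this.congr_deriv ?_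
    ring
  have hE : ∀ s, HasDerivAt (fun u => (ip (ad X u A) A - Real.cos (μ * u)) ^ 2 +
      (ip (ad X u A) B - Real.sin (μ * u)) ^ 2) 0 s := by
    intro s
    have h3 := (((hF s).sub (hcos s)).pow 2).add (((hH s).sub (hsin s)).pow 2)
    refine h3.congr_deriv ?_
    simp only [Pi.sub_apply]
    push_cast
    ring
  have hconst := is_const_of_deriv_eq_zero (fun s => (hE s).differentiableAt)
    (fun s => (hE s).deriv) (2 * Real.pi) 0
  have hAA : ip A A = 1 := by rw [ip_self, hA]; norm_num
  have hAB' : ip A B = 0 := hAB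
  simp only [ad_zero, mul_zero, Real.cos_zero, Real.sin_zero, hAA, hAB', sub_self] at hconst
  have h3 : ad X (2 * Real.pi) A = A := by
    apply Subtype.ext
    rw [ad_coe, Matrix.exp_neg, hX, inv_one, mul_one, one_mul]
  rw [h3, hAA, hAB'] at hconst
  have h4 : Real.cos (μ * (2 * Real.pi)) = 1 := by
    nlinarith [sq_nonneg (1 - Real.cos (μ * (2 * Real.pi))),
      sq_nonneg (0 - Real.sin (μ * (2 * Real.pi)))]
  obtain ⟨k, hk⟩ := (Real.cos_eq_one_iff _).1 h4
  refine ⟨k, ?_⟩
  have hpi : (2 * Real.pi) ≠ 0 := by positivity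
  exact (mul_right_cancel₀ hpi hk).symm

/-- The bi-invariant metric of a compact matrix group containing a closed 2-torus with primitive
weights is rigid to second order. -/
theorem main (G : CGroup N) (X Y : lieAlg G) (ind : LinearIndependent ℝ ![X, Y])
    (hXY : brk X Y = 0) (hX : NormedSpace.exp ((2 * Real.pi) • (X : Mat N)) = 1)
    (hY : NormedSpace.exp ((2 * Real.pi) • (Y : Mat N)) = 1) (hp : PrimitiveWeights X Y) :
    SecondOrderRigid G := by
  obtain ⟨T⟩ := exists_datum (gCalc G) X Y hXY (fun p => (move_fix_iff X (2 * Real.pi) p).2 hX)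
    (fun p => (move_fix_iff Y (2 * Real.pi) p).2 hY) ind
    (by
      intro μ ν A B hA hAB h1 h2 h3 h4 hne
      obtain ⟨m, hm⟩ := int_of_closed X A B hX μ hA hAB h1 h2
      obtain ⟨n, hn⟩ := int_of_closed Y A B hY ν hA hAB h3 h4
      have hA0 : A ≠ 0 := by
        rintro rfl
        rw [norm_zero] at hA
        exact zero_ne_one hA
      rw [hm] at h1 h2
      rw [hn] at h3 h4
      rcases hp m n A B hA0 h1 h2 h3 h4 with h | h
      · exfalso
        rcases hne with h' | h'
        · exact h' (by rw [hm, h.1]; norm_num)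
        · exact h' (by rw [hn, h.2]; norm_num)
      · obtain ⟨r, s, hrs⟩ := h
        exact ⟨m, n, r, s, hm, hn, hrs⟩)
    (fun A h1 h2 => sq_mem X Y A h1 h2)
  exact rigid_of_datum T

end Pool.Agent.TH109.CG
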