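import Pool.Agent.TH109.CG.Grp

/-!
Riemannian metrics on a compact matrix group, in the left-invariant frame.
-/

open scoped ContDiff Matrix.Norms.Frobenius
open Matrix

noncomputable section

namespace Pool.Agent.TH109.CG

variable {N : ℕ}

/-- the points of `G` -/
abbrev Pt (G : CGroup N) := {p : Mat N // p ∈ G.S}

/-- the commutator of two elements of the Lie algebra -/
def brk {G : CGroup N} (A B : lieAlg G) : lieAlg G :=
  ⟨(A : Mat N) * B - B * A, brk_mem' G A.2 B.2⟩

/-- the bi-invariant inner product `⟨A, B⟩ = - Re tr (A B)` on the Lie algebra -/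
def ip {G : CGroup N} (A B : lieAlg G) : ℝ := -((A : Mat N) * B).trace.re

/-- the point `p exp(s A)` of `G` -/
def move {G : CGroup N} (p : Pt G) (A : lieAlg G) (s : ℝ) : Pt G :=
  ⟨(p : Mat N) * NormedSpace.exp (s • (A : Mat N)), G.S.mul_mem p.2 (A.2 s)⟩

/-- Smooth functions on the submanifold `G` of the space of matrices: restrictions of smooth
functions. -/
def Smooth {G : CGroup N} (f : Pt G → ℝ) : Prop :=
  ∃ F : Mat N → ℝ, ContDiff ℝ ∞ F ∧ ∀ p : Pt G, f p = F p

/-- derivative of a function on `G` along the left-invariant field `p ↦ p A` -/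
def lie {G : CGroup N} (A : lieAlg G) (f : Pt G → ℝ) (p : Pt G) : ℝ :=
  deriv (fun s => f (move p A s)) 0

/-- A smooth Riemannian metric on `G`, given in the left-invariant frame: `g.val p A B` is the
inner product of the tangent vectors `p A` and `p B` at `p`. -/
structure Metric (G : CGroup N) where
  val : Pt G → lieAlg G →ₗ[ℝ] lieAlg G →ₗ[ℝ] ℝ
  symm : ∀ p A B, val p A B = val p B A
  pos : ∀ p A, A ≠ 0 → 0 < val p A A
  smooth : ∀ A B, Smooth (fun p => val p A B)

namespace Metric

variable {G : CGroup N} (g : Metric G)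

/-- Koszul's formula for `g(∇_A B, C)`, for left-invariant fields `A`, `B`, `C` -/
def koszul (A B C : lieAlg G) (p : Pt G) : ℝ :=
  (lie A (fun q => g.val q B C) p + lie B (fun q => g.val q A C) p
    - lie C (fun q => g.val q A B) p + g.val p (brk A B) C - g.val p (brk A C) B
    - g.val p (brk B C) A) / 2

/-- the covariant derivative `∇_A B` of left-invariant fields at `p`: the unique element `V` of
the Lie algebra with `g_p(V, C) = g_p(∇_A B, C)` (Koszul's formula) for all `C` -/
def nabla (A B : lieAlg G) (p : Pt G) : lieAlg G :=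
  Classical.epsilon fun V => ∀ C, g.val p V C = g.koszul A B C p

/-- The curvature `g(R(A,B)B, A) = g(∇_A ∇_B B - ∇_B ∇_A B - ∇_[A,B] B, A)` at `p`, in the form
`A g(∇_B B, A) - g(∇_B B, ∇_A A) - B g(∇_A B, A) + g(∇_A B, ∇_B A) - g(∇_[A,B] B, A)`. -/
def curv (A B : lieAlg G) (p : Pt G) : ℝ :=
  lie A (g.koszul B B A) p - g.val p (g.nabla B B p) (g.nabla A A p)
    - lie B (g.koszul A B A) p + g.val p (g.nabla A B p) (g.nabla B A p)
    - g.koszul (brk A B) B A p

/-- sectional curvature of the plane spanned by the tangent vectors `p A`, `p B` at `p` -/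
def sec (A B : lieAlg G) (p : Pt G) : ℝ :=
  g.curv A B p / (g.val p A A * g.val p B B - g.val p A B ^ 2)

/-- `‖g - g₀‖_{C⁴} ≤ t`, where `g₀` is the bi-invariant metric `⟨A, B⟩ = - Re tr (A B)`: the
components of `g - g₀` in the left-invariant frame and all their derivatives of order at most four
along left-invariant fields of length at most one are bounded by `t`. -/
def CloseToBiinvariant (t : ℝ) : Prop :=
  ∀ L : List (lieAlg G), L.length ≤ 4 → (∀ Z ∈ L, ip Z Z ≤ 1) →
    ∀ A B : lieAlg G, ip A A ≤ 1 → ip B B ≤ 1 →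
      ∀ p, |(L.foldr lie (fun q => g.val q A B - ip A B)) p| ≤ t

end Metric

/-- Second order rigidity of the bi-invariant metric of `G`: for every `ε > 0` there is
`t₀ > 0` such that every smooth Riemannian metric at `C⁴` distance at most `t ≤ t₀` from the
bi-invariant metric has a plane of sectional curvature at most `ε t²`. -/
def SecondOrderRigid (G : CGroup N) : Prop :=
  ∀ ε : ℝ, 0 < ε → ∃ t₀ : ℝ, 0 < t₀ ∧ ∀ (g : Metric G) (t : ℝ), 0 < t → t ≤ t₀ →
    g.CloseToBiinvariant t →
      ∃ (p : Pt G) (A B : lieAlg G), LinearIndependent ℝ ![A, B] ∧ g.sec A B p ≤ ε * t ^ 2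

/-- The weights of the 2-torus generated by the commuting elements `X`, `Y` of the Lie algebra
are zero or primitive: if `A`, `B` span a plane (or `A = B = 0`) on which `(ad X, ad Y)` acts by
`(m J, n J)`, with `J A = B`, `J B = -A`, and `A ≠ 0`, then `m = n = 0` or `m`, `n` are coprime. -/
def PrimitiveWeights {G : CGroup N} (X Y : lieAlg G) : Prop :=
  ∀ (m n : ℤ) (A B : lieAlg G), A ≠ 0 →
    brk X A = (m : ℝ) • B → brk X B = -((m : ℝ) • A) →
    brk Y A = (n : ℝ) • B → brk Y B = -((n : ℝ) • A) →
      (m = 0 ∧ n = 0) ∨ IsCoprime m n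

end Pool.Agent.TH109.CG
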