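import Mathlib

/-!
Joint weight decomposition of two commuting skew-symmetric maps of a Euclidean space.
-/

open Module

noncomputable section

namespace Pool.Agent.TH109.CG

variable {E : Type} [NormedAddCommGroup E] [InnerProductSpace ℝ E] [FiniteDimensional ℝ E]

theorem exists_joint [Nontrivial E] (T1 T2 : E →ₗ[ℝ] E)
    (h1 : ∀ u v : E, inner ℝ (T1 u) v = - inner ℝ u (T1 v))
    (h2 : ∀ u v : E, inner ℝ (T2 u) v = - inner ℝ u (T2 v))
    (hc : ∀ u, T1 (T2 u) = T2 (T1 u)) :
    ∃ (z : E) (a b c : ℝ), ‖z‖ = 1 ∧ T1 (T1 z) = a • z ∧ T2 (T2 z) = b • z ∧ T1 (T2 z) = c • z := by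
  let T : Fin 3 → (E →ₗ[ℝ] E) := ![T1 ∘ₗ T1, T2 ∘ₗ T2, T1 ∘ₗ T2]
  have hT : ∀ i, (T i).IsSymmetric := by
    intro i u v
    fin_cases i
    · show inner ℝ (T1 (T1 u)) v = inner ℝ u (T1 (T1 v))
      rw [h1, h1, neg_neg]
    · show inner ℝ (T2 (T2 u)) v = inner ℝ u (T2 (T2 v))
      rw [h2, h2, neg_neg]
    · show inner ℝ (T1 (T2 u)) v = inner ℝ u (T1 (T2 v))
      rw [h1, h2, neg_neg, hc]
  have hC : Pairwise (Function.onFun Commute T) := by
    intro i j _
    show T i * T j = T j * T i
    refine LinearMap.ext fun u => ?_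
    fin_cases i <;> fin_cases j <;> simp [T, hc]
  have htop := LinearMap.IsSymmetric.iSup_iInf_eq_top_of_commute hT hC
  have hne : ∃ χ : Fin 3 → ℝ, (⨅ i, End.eigenspace (T i) (χ i)) ≠ ⊥ := by
    by_contra hcon
    push Not at hcon
    rw [iSup_congr hcon, iSup_bot] at htop
    exact bot_ne_top htop
  obtain ⟨χ, hχ⟩ := hne
  obtain ⟨x, hx, hx0⟩ := (Submodule.ne_bot_iff _).1 hχ
  have hx' : ∀ i, T i x = χ i • x := fun i =>
    End.mem_eigenspace_iff.1 ((Submodule.mem_iInf _).1 hx i)
  have hn : ‖x‖ ≠ 0 := norm_ne_zero_iff.2 hx0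
  refine ⟨‖x‖⁻¹ • x, χ 0, χ 1, χ 2, ?_, ?_, ?_, ?_⟩
  · rw [norm_smul, norm_inv, norm_norm, inv_mul_cancel₀ hn]
  · rw [map_smul, map_smul, smul_comm]
    congr 1
    exact hx' 0
  · rw [map_smul, map_smul, smul_comm]
    congr 1
    exact hx' 1
  · rw [map_smul, map_smul, smul_comm]
    congr 1
    exact hx' 2

theorem exists_joint_sub (T1 T2 : E →ₗ[ℝ] E)
    (h1 : ∀ u v : E, inner ℝ (T1 u) v = - inner ℝ u (T1 v))
    (h2 : ∀ u v : E, inner ℝ (T2 u) v = - inner ℝ u (T2 v))
    (hc : ∀ u, T1 (T2 u) = T2 (T1 u)) (W : Submodule ℝ E) (hW : W ≠ ⊥)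
    (hW1 : ∀ u ∈ W, T1 u ∈ W) (hW2 : ∀ u ∈ W, T2 u ∈ W) :
    ∃ z ∈ W, ∃ a b c : ℝ, ‖z‖ = 1 ∧ T1 (T1 z) = a • z ∧ T2 (T2 z) = b • z ∧
      T1 (T2 z) = c • z := by
  have hnt : Nontrivial W := Submodule.nontrivial_iff_ne_bot.2 hW
  obtain ⟨z, a, b, c, hz, ha, hb, hcc⟩ := exists_joint (E := W) (T1.restrict hW1) (T2.restrict hW2)
    (fun u v => h1 u v) (fun u v => h2 u v) (fun u => Subtype.ext (hc u))
  exact ⟨z, z.2, a, b, c, hz, congrArg Subtype.val ha, congrArg Subtype.val hb,
    congrArg Subtype.val hcc⟩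

/-- weight decomposition -/
theorem exists_weights (T1 T2 : E →ₗ[ℝ] E)
    (h1 : ∀ u v : E, inner ℝ (T1 u) v = - inner ℝ u (T1 v))
    (h2 : ∀ u v : E, inner ℝ (T2 u) v = - inner ℝ u (T2 v))
    (hc : ∀ u, T1 (T2 u) = T2 (T1 u)) (d : ℕ) : ∀ (W : Submodule ℝ E), finrank ℝ W ≤ d →
    (∀ u ∈ W, T1 u ∈ W) → (∀ u ∈ W, T2 u ∈ W) →
    ∃ (ι0 ιR : Type) (_ : Fintype ι0) (_ : Fintype ιR) (e : ι0 → E) (μ ν : ιR → ℝ)
      (Z1 Z2 : ιR → E),
      (∀ i, e i ∈ W ∧ T1 (e i) = 0 ∧ T2 (e i) = 0) ∧ (∀ a, Z1 a ∈ W ∧ Z2 a ∈ W) ∧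
      (∀ a, T1 (Z1 a) = μ a • Z2 a ∧ T1 (Z2 a) = -(μ a • Z1 a) ∧ T2 (Z1 a) = ν a • Z2 a ∧
        T2 (Z2 a) = -(ν a • Z1 a)) ∧ (∀ a, μ a ≠ 0 ∨ ν a ≠ 0) ∧
      Orthonormal ℝ (Sum.elim Z1 Z2) ∧
      ∀ u, ∀ v ∈ W, inner ℝ u v = ∑ i, inner ℝ u (e i) * inner ℝ v (e i) +
        ∑ a, (inner ℝ u (Z1 a) * inner ℝ v (Z1 a) + inner ℝ u (Z2 a) * inner ℝ v (Z2 a)) := by
  induction d with
  | zero =>
    intro W hd _ _
    have hW : W = ⊥ := Submodule.finrank_eq_zero.1 (Nat.le_zero.1 hd)
    refine ⟨Empty, Empty, inferInstance, inferInstance, Empty.elim, Empty.elim, Empty.elim,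
      Empty.elim, Empty.elim, fun i => i.elim, fun a => a.elim, fun a => a.elim, fun a => a.elim,
      ?_, ?_⟩
    · rw [orthonormal_iff_ite]
      rintro (a | a)
      · exact a.elim
      · exact a.elim
    · intro u v hv
      rw [hW, Submodule.mem_bot] at hv
      simp [hv]
  | succ d ih =>
    intro W hd hW1 hW2
    by_cases hW : W = ⊥
    · exact ih W (by rw [hW, finrank_bot]; exact Nat.zero_le _) hW1 hW2
    obtain ⟨z, hzW, a, b, c, hz, ha, hb, hcc⟩ := exists_joint_sub T1 T2 h1 h2 hc W hW hW1 hW2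
    have hzz : inner ℝ z z = (1 : ℝ) := by rw [real_inner_self_eq_norm_sq, hz]; norm_num
    by_cases h0 : T1 z = 0 ∧ T2 z = 0
    · -- zero weight
      set W' : Submodule ℝ E := W ⊓ (Submodule.span ℝ {z})ᗮ with hW'
      have mem' : ∀ v, v ∈ W' ↔ v ∈ W ∧ inner ℝ z v = (0 : ℝ) := by
        intro v
        rw [hW', Submodule.mem_inf, Submodule.mem_orthogonal_singleton_iff_inner_right]
      have hlt : W' < W := by
        refine lt_of_le_of_ne inf_le_left fun heq => ?_
        have := ((mem' z).1 (heq ▸ hzW)).2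
        rw [hzz] at this
        exact one_ne_zero this
      have hfr : finrank ℝ W' ≤ d := by
        have := Submodule.finrank_lt_finrank_of_lt hlt
        omega
      obtain ⟨ι0, ιR, f0, fR, e, μ, ν, Z1, Z2, he, hZ, hw, hne, ho, hp⟩ := ih W' hfr
        (fun u hu => (mem' _).2 ⟨hW1 u ((mem' u).1 hu).1, by
          have := h1 z u
          rw [h0.1, inner_zero_left] at this
          linarith⟩)
        (fun u hu => (mem' _).2 ⟨hW2 u ((mem' u).1 hu).1, by
          have := h2 z u
          rw [h0.2, inner_zero_left] at this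
          linarith⟩)
      refine ⟨Option ι0, ιR, inferInstance, fR, fun i => i.elim z e, μ, ν, Z1, Z2, ?_, ?_, hw, hne,
        ho, ?_⟩
      · rintro (_ | i)
        · exact ⟨hzW, h0.1, h0.2⟩
        · exact ⟨((mem' _).1 (he i).1).1, (he i).2⟩
      · exact fun a => ⟨((mem' _).1 (hZ a).1).1, ((mem' _).1 (hZ a).2).1⟩
      · intro u v hv
        have hv' : v - inner ℝ z v • z ∈ W' := by
          rw [mem']
          refine ⟨W.sub_mem hv (W.smul_mem _ hzW), ?_⟩
          rw [inner_sub_right, real_inner_smul_right, hzz, mul_one, sub_self]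
        have h3 := hp u _ hv'
        have h4 : ∀ x ∈ W', inner ℝ (v - inner ℝ z v • z) x = inner ℝ v x := by
          intro x hx
          rw [inner_sub_left, real_inner_smul_left, ((mem' x).1 hx).2, mul_zero, sub_zero]
        have h5 : ∀ i, inner ℝ (v - inner ℝ z v • z) (e i) = inner ℝ v (e i) :=
          fun i => h4 _ (he i).1
        have h6 : ∀ i, inner ℝ (v - inner ℝ z v • z) (Z1 i) = inner ℝ v (Z1 i) :=
          fun i => h4 _ (hZ i).1
        have h7 : ∀ i, inner ℝ (v - inner ℝ z v • z) (Z2 i) = inner ℝ v (Z2 i) :=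
          fun i => h4 _ (hZ i).2
        simp only [h5, h6, h7] at h3
        rw [Fintype.sum_option]
        simp only [Option.elim]
        rw [inner_sub_right, real_inner_smul_right] at h3
        rw [real_inner_comm v z] at h3
        linarith
    · -- nonzero weight
      obtain ⟨w, μ0, ν0, hwW, hww, hzw, e1, e2, e3, e4, hmn⟩ : ∃ (w : E) (μ0 ν0 : ℝ), w ∈ W ∧
          inner ℝ w w = (1 : ℝ) ∧ inner ℝ z w = (0 : ℝ) ∧ T1 z = μ0 • w ∧ T1 w = -(μ0 • z) ∧
          T2 z = ν0 • w ∧ T2 w = -(ν0 • z) ∧ (μ0 ≠ 0 ∨ ν0 ≠ 0) := by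
        by_cases hT1 : T1 z = 0
        · have hT2 : T2 z ≠ 0 := fun h => h0 ⟨hT1, h⟩
          have hn : ‖T2 z‖ ≠ 0 := norm_ne_zero_iff.2 hT2
          have hb' : b = -‖T2 z‖ ^ 2 := by
            have := h2 z (T2 z)
            rw [hb, real_inner_smul_right, hzz, real_inner_self_eq_norm_sq] at this
            linarith
          refine ⟨‖T2 z‖⁻¹ • T2 z, 0, ‖T2 z‖, W.smul_mem _ (hW2 z hzW), ?_, ?_, ?_, ?_, ?_, ?_, ?_⟩
          · rw [real_inner_smul_left, real_inner_smul_right, real_inner_self_eq_norm_sq]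
            field_simp
          · have := h2 z z
            rw [real_inner_comm] at this
            rw [real_inner_smul_right]
            have h9 : inner ℝ z (T2 z) = (0 : ℝ) := by linarith
            rw [h9, mul_zero]
          · rw [hT1, zero_smul]
          · rw [map_smul, hc, hT1, map_zero, smul_zero, zero_smul, neg_zero]
          · rw [smul_smul, mul_inv_cancel₀ hn, one_smul]
          · rw [map_smul, hb, smul_smul, ← neg_smul]
            congr 1
            rw [hb']
            field_simp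
          · exact Or.inr hn
        · have hn : ‖T1 z‖ ≠ 0 := norm_ne_zero_iff.2 hT1
          have ha' : a = -‖T1 z‖ ^ 2 := by
            have := h1 z (T1 z)
            rw [ha, real_inner_smul_right, hzz, real_inner_self_eq_norm_sq] at this
            linarith
          have ha0 : a ≠ 0 := by rw [ha']; exact neg_ne_zero.2 (pow_ne_zero _ hn)
          -- `a T2 z = c T1 z`
          have h8 : a • T2 z = c • T1 z := by
            rw [← map_smul, ← ha, ← map_smul, ← hcc, hc, hc]
          have h9 : T2 z = (a⁻¹ * c) • T1 z := by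
            rw [mul_smul, ← h8, smul_smul, inv_mul_cancel₀ ha0, one_smul]
          refine ⟨‖T1 z‖⁻¹ • T1 z, ‖T1 z‖, (a⁻¹ * c) * ‖T1 z‖, W.smul_mem _ (hW1 z hzW), ?_, ?_, ?_,
            ?_, ?_, ?_, ?_⟩
          · rw [real_inner_smul_left, real_inner_smul_right, real_inner_self_eq_norm_sq]
            field_simp
          · have := h1 z z
            rw [real_inner_comm] at this
            rw [real_inner_smul_right]
            have h9 : inner ℝ z (T1 z) = (0 : ℝ) := by linarith
            rw [h9, mul_zero]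
          · rw [smul_smul, mul_inv_cancel₀ hn, one_smul]
          · rw [map_smul, ha, smul_smul, ← neg_smul]
            congr 1
            rw [ha']
            field_simp
          · rw [smul_smul, mul_assoc, mul_inv_cancel₀ hn, mul_one]
            exact h9
          · rw [map_smul, ← hc, hcc, smul_smul, ← neg_smul]
            congr 1
            rw [ha']
            field_simp
          · exact Or.inl hn
      have hwz : inner ℝ w z = (0 : ℝ) := by rw [real_inner_comm]; exact hzw
      set W' : Submodule ℝ E := W ⊓ ((Submodule.span ℝ {z})ᗮ ⊓ (Submodule.span ℝ {w})ᗮ) with hW'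
      have mem' : ∀ v, v ∈ W' ↔ v ∈ W ∧ inner ℝ z v = (0 : ℝ) ∧ inner ℝ w v = (0 : ℝ) := by
        intro v
        rw [hW', Submodule.mem_inf, Submodule.mem_inf,
          Submodule.mem_orthogonal_singleton_iff_inner_right,
          Submodule.mem_orthogonal_singleton_iff_inner_right]
      have hlt : W' < W := by
        refine lt_of_le_of_ne inf_le_left fun heq => ?_
        have := ((mem' z).1 (heq ▸ hzW)).2.1
        rw [hzz] at this
        exact one_ne_zero this
      have hfr : finrank ℝ W' ≤ d := by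
        have := Submodule.finrank_lt_finrank_of_lt hlt
        omega
      obtain ⟨ι0, ιR, f0, fR, e, μ, ν, Z1, Z2, he, hZ, hw, hne, ho, hp⟩ := ih W' hfr
        (fun u hu => (mem' _).2 ⟨hW1 u ((mem' u).1 hu).1, by
          have := h1 z u
          rw [e1, real_inner_smul_left, ((mem' u).1 hu).2.2] at this
          linarith, by
          have := h1 w u
          rw [e2, inner_neg_left, real_inner_smul_left, ((mem' u).1 hu).2.1] at this
          linarith⟩)
        (fun u hu => (mem' _).2 ⟨hW2 u ((mem' u).1 hu).1, by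
          have := h2 z u
          rw [e3, real_inner_smul_left, ((mem' u).1 hu).2.2] at this
          linarith, by
          have := h2 w u
          rw [e4, inner_neg_left, real_inner_smul_left, ((mem' u).1 hu).2.1] at this
          linarith⟩)
      refine ⟨ι0, Option ιR, f0, inferInstance, e, fun i => i.elim μ0 μ, fun i => i.elim ν0 ν,
        fun i => i.elim z Z1, fun i => i.elim w Z2, ?_, ?_, ?_, ?_, ?_, ?_⟩
      · exact fun i => ⟨((mem' _).1 (he i).1).1, (he i).2⟩
      · rintro (_ | a)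
        · exact ⟨hzW, hwW⟩
        · exact ⟨((mem' _).1 (hZ a).1).1, ((mem' _).1 (hZ a).2).1⟩
      · rintro (_ | a)
        · exact ⟨e1, e2, e3, e4⟩
        · exact hw a
      · rintro (_ | a)
        · exact hmn
        · exact hne a
      · classical
        rw [orthonormal_iff_ite] at ho ⊢
        have k1 : ∀ a b, inner ℝ (Z1 a) (Z1 b) = if a = b then (1 : ℝ) else 0 := by
          intro a b
          have := ho (Sum.inl a) (Sum.inl b)
          simpa using this
        have k2 : ∀ a b, inner ℝ (Z1 a) (Z2 b) = (0 : ℝ) := by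
          intro a b
          have := ho (Sum.inl a) (Sum.inr b)
          simpa using this
        have k3 : ∀ a b, inner ℝ (Z2 a) (Z1 b) = (0 : ℝ) := by
          intro a b
          have := ho (Sum.inr a) (Sum.inl b)
          simpa using this
        have k4 : ∀ a b, inner ℝ (Z2 a) (Z2 b) = if a = b then (1 : ℝ) else 0 := by
          intro a b
          have := ho (Sum.inr a) (Sum.inr b)
          simpa using this
        have m1 : ∀ a, inner ℝ z (Z1 a) = (0 : ℝ) := fun a => ((mem' _).1 (hZ a).1).2.1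
        have m2 : ∀ a, inner ℝ z (Z2 a) = (0 : ℝ) := fun a => ((mem' _).1 (hZ a).2).2.1
        have m3 : ∀ a, inner ℝ w (Z1 a) = (0 : ℝ) := fun a => ((mem' _).1 (hZ a).1).2.2
        have m4 : ∀ a, inner ℝ w (Z2 a) = (0 : ℝ) := fun a => ((mem' _).1 (hZ a).2).2.2
        have n1 : ∀ a, inner ℝ (Z1 a) z = (0 : ℝ) := fun a => by rw [real_inner_comm]; exact m1 a
        have n2 : ∀ a, inner ℝ (Z2 a) z = (0 : ℝ) := fun a => by rw [real_inner_comm]; exact m2 a
        have n3 : ∀ a, inner ℝ (Z1 a) w = (0 : ℝ) := fun a => by rw [real_inner_comm]; exact m3 a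
        have n4 : ∀ a, inner ℝ (Z2 a) w = (0 : ℝ) := fun a => by rw [real_inner_comm]; exact m4 a
        rintro ((_ | x) | (_ | x)) ((_ | y) | (_ | y)) <;>
          simp [k1, k2, k3, k4, m1, m2, m3, m4, n1, n2, n3, n4, hzz, hww, hzw, hwz, -inner_self_eq_norm_sq_to_K]
      · intro u v hv
        set v' := v - inner ℝ z v • z - inner ℝ w v • w with hv'd
        have hv' : v' ∈ W' := by
          rw [mem']
          refine ⟨W.sub_mem (W.sub_mem hv (W.smul_mem _ hzW)) (W.smul_mem _ hwW), ?_, ?_⟩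
          · rw [hv'd, inner_sub_right, inner_sub_right, real_inner_smul_right, real_inner_smul_right,
              hzz, hzw]
            ring
          · rw [hv'd, inner_sub_right, inner_sub_right, real_inner_smul_right, real_inner_smul_right,
              hww, hwz]
            ring
        have h3 := hp u _ hv'
        have h4 : ∀ x ∈ W', inner ℝ v' x = inner ℝ v x := by
          intro x hx
          rw [hv'd, inner_sub_left, inner_sub_left, real_inner_smul_left, real_inner_smul_left,
            ((mem' x).1 hx).2.1, ((mem' x).1 hx).2.2]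
          ring
        have h5 : ∀ i, inner ℝ v' (e i) = inner ℝ v (e i) := fun i => h4 _ (he i).1
        have h6 : ∀ i, inner ℝ v' (Z1 i) = inner ℝ v (Z1 i) := fun i => h4 _ (hZ i).1
        have h7 : ∀ i, inner ℝ v' (Z2 i) = inner ℝ v (Z2 i) := fun i => h4 _ (hZ i).2
        simp only [h5, h6, h7] at h3
        rw [Fintype.sum_option]
        simp only [Option.elim]
        rw [hv'd, inner_sub_right, inner_sub_right, real_inner_smul_right,
          real_inner_smul_right] at h3
        rw [real_inner_comm v z, real_inner_comm v w] at h3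
        linarith

end Pool.Agent.TH109.CG
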